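import Pool.Agent.Helper91.Gon.Koszul

/-!
Every rational vector space has a polynomial model.
-/

namespace Pool.Agent.Helper91.Gon

open scoped TensorProduct
open TensorProduct

universe u

/-- polynomial ring on a basis of `V`. -/
abbrev PolyRing (V : Type u) [AddCommGroup V] [Module ℚ V] : Type u :=
  MvPolynomial (Module.Basis.ofVectorSpaceIndex ℚ V) ℚ

/-- the total differential of the polynomial ring on a basis of `V`. -/
noncomputable def polyD (V : Type u) [AddCommGroup V] [Module ℚ V] :
    Derivation ℚ (PolyRing V) (PolyRing V ⊗[ℚ] V) :=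
  MvPolynomial.mkDerivation ℚ (fun i => (1 : PolyRing V) ⊗ₜ[ℚ]
    (Module.Basis.ofVectorSpace ℚ V i))

/-- The polynomial ring on a basis of `V` is a polynomial model. -/
noncomputable def polyModel (V : Type u) [AddCommGroup V] [Module ℚ V] :
    PolyModel V (PolyRing V) where
  l := (Module.Basis.ofVectorSpace ℚ V).constr ℚ (fun i => MvPolynomial.X i)
  D := polyD V
  D_l := by
    intro v
    have h : (polyD V : PolyRing V →ₗ[ℚ] PolyRing V ⊗[ℚ] V) ∘ₗ
        (Module.Basis.ofVectorSpace ℚ V).constr ℚ (fun i => MvPolynomial.X i) =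
        TensorProduct.mk ℚ (PolyRing V) V 1 := by
      apply (Module.Basis.ofVectorSpace ℚ V).ext
      intro i
      rw [LinearMap.comp_apply, Module.Basis.constr_basis]
      simp [polyD]
    exact LinearMap.congr_fun h v

end Pool.Agent.Helper91.Gon
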