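import Pool.Agent.Helper91.Gon.Double
import Pool.Agent.Helper91.Gon.Model

/-!
# Exactness of polylogarithmic complexes, abstract form

`V` is a rational vector space, `a x` and `b x` (`x ∈ X`) are vectors (`log x` and `log (1-x)`),
`B n` is a rational vector space spanned by symbols `s n x` (`= {x}_{n+2}`), with injective maps
`d2 : B 0 → Λ² V`, `s 0 x ↦ b x ∧ a x`, and `dS n : B (n+1) → B n ⊗ V`,
`s (n+1) x ↦ s n x ⊗ a x`.  If the symbols satisfy the spanning theorem, the complexes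
`B n → B (n-1) ⊗ V → ... → B 0 ⊗ Λ^n V → Λ^(n+2) V` are exact everywhere.
-/

namespace Pool.Agent.Helper91.Gon.Abs

open scoped TensorProduct
open TensorProduct

universe u v w

section tools

/-- `(s ⊗ x) ⊗ v ↦ s ⊗ (v ⊗ x)`. -/
noncomputable def rho (S X V : Type*) [AddCommGroup S] [Module ℚ S] [AddCommGroup X] [Module ℚ X]
    [AddCommGroup V] [Module ℚ V] : (S ⊗[ℚ] X) ⊗[ℚ] V ≃ₗ[ℚ] S ⊗[ℚ] (V ⊗[ℚ] X) :=
  (TensorProduct.assoc ℚ S X V).trans (TensorProduct.congr (LinearEquiv.refl ℚ S)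
    (TensorProduct.comm ℚ X V))

@[simp] lemma rho_tmul {S X V : Type*} [AddCommGroup S] [Module ℚ S] [AddCommGroup X] [Module ℚ X]
    [AddCommGroup V] [Module ℚ V] (s : S) (x : X) (v : V) :
    rho S X V ((s ⊗ₜ x) ⊗ₜ v) = s ⊗ₜ (v ⊗ₜ x) := by
  simp [rho]

variable {V : Type*} [AddCommGroup V] [Module ℚ V] {S : Type*} [CommRing S] [Algebra ℚ S]

lemma one_tmul_inj [Nontrivial S] (X : Type*) [AddCommGroup X] [Module ℚ X] {x : X}
    (h : (1 : S) ⊗ₜ[ℚ] x = 0) : x = 0 := by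
  have hinj : Function.Injective (Algebra.linearMap ℚ S) :=
    (algebraMap ℚ S).injective
  have h1 := Module.Flat.rTensor_preserves_injective_linearMap (M := X)
    (Algebra.linearMap ℚ S) hinj
  have h2 : (Algebra.linearMap ℚ S).rTensor X ((1 : ℚ) ⊗ₜ x) = 0 := by
    rw [LinearMap.rTensor_tmul]
    simpa using h
  have h3 := h1 (h2.trans (map_zero _).symm)
  have h4 := congrArg (TensorProduct.lid ℚ X) h3
  simpa using h4

lemma Dmk_inj (P : PolyModel V S) (X : Type*) [AddCommGroup X] [Module ℚ X] (c : ℕ)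
    {z : S ⊗[ℚ] X}
    (hz : z ∈ P.KK (c + 1) X) (h : P.Dop (TensorProduct.mk ℚ V X) z = 0) : z = 0 := by
  have := P.exact_of_homotopy (W := PUnit.{1}) (TensorProduct.mk ℚ V X) LinearMap.id 0 0 0
    (by intro v x; simp) (by intro x; simp) hz (by push_cast; positivity) h
  rw [this, PolyModel.Dop_zero]
  simp

/-- `(v_i) ↦ ∏ l(v_i)`. -/
noncomputable def prodM (P : PolyModel V S) (m : ℕ) : MultilinearMap ℚ (fun _ : Fin m => V) S :=
  (MultilinearMap.mkPiAlgebra ℚ (Fin m) S).compLinearMap (fun _ => P.l)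

/-- `ω ↦ ((v_i) ↦ φ (∏ l(v_i) ⊗ ω))`. -/
noncomputable def multiL (P : PolyModel V S) (m : ℕ) (φ : S ⊗[ℚ] Lam V 2 →ₗ[ℚ] ℚ) :
    Lam V 2 →ₗ[ℚ] MultilinearMap ℚ (fun _ : Fin m => V) ℚ where
  toFun ω := (φ ∘ₗ (TensorProduct.mk ℚ S (Lam V 2)).flip ω).compMultilinearMap (prodM P m)
  map_add' := by
    intro a b
    ext v
    simp
  map_smul' := by
    intro c a
    ext v
    simp

/-- `(u, v, v_1, ..., v_m) ↦ φ (∏ l(v_i) ⊗ (u ∧ v))`. -/
noncomputable def multiT (P : PolyModel V S) (m : ℕ) (φ : S ⊗[ℚ] Lam V 2 →ₗ[ℚ] ℚ) :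
    MultilinearMap ℚ (fun _ : Fin (m + 1 + 1) => V) ℚ :=
  LinearMap.uncurryLeft
    ((multilinearCurryLeftEquiv ℚ (fun _ : Fin (m + 1) => V) ℚ).symm.toLinearMap ∘ₗ
      (ww V).compr₂ (multiL P m φ))

lemma multiT_cons (P : PolyModel V S) (m : ℕ) (φ : S ⊗[ℚ] Lam V 2 →ₗ[ℚ] ℚ) (u v : V) :
    multiT P m φ (Fin.cons u (fun _ => v) : Fin (m + 1 + 1) → V) =
      φ ((P.l v ^ m) ⊗ₜ ww V u v) := by
  simp [multiT, multiL, prodM, Fin.tail]

/-- the class of `v_0 ∧ ... ∧ v_{n-1}`. -/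
noncomputable def iota (n : ℕ) (w : Fin n → V) : Lam V n := exteriorPower.ιMulti ℚ n w

lemma wdg_iota (n : ℕ) (v : V) (w : Fin n → V) :
    wdg V n v (iota n w) = iota (n + 1) (Matrix.vecCons v w) := wedge_ιMulti n v w

lemma iota_two (v u : V) : iota 2 ![v, u] = ww V v u := (w2_apply v u).symm

lemma Lam_zero (ω : Lam V 0) (w : Fin 0 → V) : ∃ c : ℚ, ω = c • iota 0 w := by
  refine ⟨exteriorPower.zeroEquiv ℚ V ω, ?_⟩
  apply (exteriorPower.zeroEquiv ℚ V).injective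
  erw [map_smul]
  erw [exteriorPower.zeroEquiv_ιMulti]
  simp

lemma Lam_span (n : ℕ) (N : Submodule ℚ (Lam V n))
    (h : ∀ w, iota n w ∈ N) (ω : Lam V n) : ω ∈ N := by
  have h1 : Submodule.span ℚ (Set.range (exteriorPower.ιMulti ℚ n (M := V))) = ⊤ :=
    exteriorPower.ιMulti_span ℚ n V
  have h2 : (⊤ : Submodule ℚ (⋀[ℚ]^n V)) ≤ N := by
    rw [← h1, Submodule.span_le]
    rintro _ ⟨w, rfl⟩
    exact h w
  exact h2 (Submodule.mem_top)

variable (V) in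
lemma lift_wdg_zero_injective : Function.Injective (TensorProduct.lift (wdg V 0)) := by
  have h : cml V 0 ∘ₗ TensorProduct.lift (wdg V 0) = LinearMap.id := by
    apply TensorProduct.ext'
    intro v ω
    rw [LinearMap.comp_apply, TensorProduct.lift.tmul, cml_wdg_zero, LinearMap.id_apply]
  exact Function.LeftInverse.injective (g := cml V 0) (fun x => LinearMap.congr_fun h x)

variable (V) in
lemma lift_wdg2_zero_injective : Function.Injective (TensorProduct.lift (wdg2 V 0)) := by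
  let e : Lam V 0 := iota 0 ![]
  have h1 : TensorProduct.lift (wdg2 V 0) ∘ₗ (TensorProduct.mk ℚ (Lam V 2) (Lam V 0)).flip e =
      LinearMap.id := by
    apply liftL_ext
    intro v u
    change wdg2 V 0 (ww V v u) (iota 0 ![]) = ww V v u
    rw [wdg2_ww, wdg_iota, wdg_iota, iota_two]
  have h2 : Function.Surjective ((TensorProduct.mk ℚ (Lam V 2) (Lam V 0)).flip e) := by
    intro z
    induction z using TensorProduct.induction_on with
    | zero => exact ⟨0, map_zero _⟩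
    | tmul y ω =>
      obtain ⟨c, rfl⟩ := Lam_zero ω ![]
      refine ⟨c • y, ?_⟩
      simp [e]
    | add a b ha hb =>
      obtain ⟨a, rfl⟩ := ha
      obtain ⟨b, rfl⟩ := hb
      exact ⟨a + b, map_add _ _ _⟩
  intro x y hxy
  obtain ⟨x, rfl⟩ := h2 x
  obtain ⟨y, rfl⟩ := h2 y
  have hx := LinearMap.congr_fun h1 x
  have hy := LinearMap.congr_fun h1 y
  rw [LinearMap.comp_apply, LinearMap.id_apply] at hx hy
  rw [← hx, ← hy, hxy]

end tools

section main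

variable {V : Type u} [AddCommGroup V] [Module ℚ V] {X : Type w} {a b : X → V}
  {B : ℕ → Type v} [∀ n, AddCommGroup (B n)] [∀ n, Module ℚ (B n)]
  {s : ∀ n, X → B n} (hs : ∀ n, Submodule.span ℚ (Set.range (s n)) = ⊤)
  {d2 : B 0 →ₗ[ℚ] Lam V 2} (hd2 : ∀ x, d2 (s 0 x) = ww V (b x) (a x))
  {dS : ∀ n, B (n + 1) →ₗ[ℚ] B n ⊗[ℚ] V}
  (hdS : ∀ n x, dS n (s (n + 1) x) = s n x ⊗ₜ[ℚ] a x)

/-- `z ⊗ ω ↦ dS z ∧ ω`. -/
noncomputable def diffS (dS : ∀ n, B (n + 1) →ₗ[ℚ] B n ⊗[ℚ] V) (n j : ℕ) :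
    B (n + 1) ⊗[ℚ] Lam V j →ₗ[ℚ] B n ⊗[ℚ] Lam V (j + 1) :=
  (TensorProduct.lift (wdg V j)).lTensor (B n) ∘ₗ
    (TensorProduct.assoc ℚ (B n) V (Lam V j)).toLinearMap ∘ₗ (dS n).rTensor (Lam V j)

/-- `z ⊗ ω ↦ d2 z ∧ ω`. -/
noncomputable def diff2 (d2 : B 0 →ₗ[ℚ] Lam V 2) (j : ℕ) :
    B 0 ⊗[ℚ] Lam V j →ₗ[ℚ] Lam V (j + 2) :=
  TensorProduct.lift (wdg2 V j) ∘ₗ d2.rTensor (Lam V j)

include hs in
lemma B_mem {M : Type*} [AddCommGroup M] [Module ℚ M] (n : ℕ) (f : B n →ₗ[ℚ] M)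
    (N : Submodule ℚ M) (h : ∀ x, f (s n x) ∈ N) (z : B n) : f z ∈ N := by
  have h1 : (⊤ : Submodule ℚ (B n)) ≤ N.comap f := by
    rw [← hs n, Submodule.span_le]
    rintro _ ⟨x, rfl⟩
    exact h x
  exact h1 (Submodule.mem_top)

include hs in
lemma BL_mem {L M : Type*} [AddCommGroup L] [Module ℚ L] [AddCommGroup M] [Module ℚ M]
    (n : ℕ) (f : B n ⊗[ℚ] L →ₗ[ℚ] M) (N : Submodule ℚ M)
    (h : ∀ (x : X) (ω : L), f (s n x ⊗ₜ ω) ∈ N) (z : B n ⊗[ℚ] L) : f z ∈ N := by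
  induction z using TensorProduct.induction_on with
  | zero => rw [map_zero]; exact N.zero_mem
  | tmul y ω =>
    exact B_mem hs n (f ∘ₗ (TensorProduct.mk ℚ (B n) L).flip ω) N (fun x => h x ω) y
  | add a b ha hb => rw [map_add]; exact N.add_mem ha hb

include hs in
lemma BL_ext {L M : Type*} [AddCommGroup L] [Module ℚ L] [AddCommGroup M] [Module ℚ M]
    (n : ℕ) {f g : B n ⊗[ℚ] L →ₗ[ℚ] M}
    (h : ∀ (x : X) (ω : L), f (s n x ⊗ₜ ω) = g (s n x ⊗ₜ ω)) (z : B n ⊗[ℚ] L) :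
    f z = g z := by
  have := BL_mem hs n (f - g) ⊥ (fun x ω => by simp [h x ω]) z
  simpa [sub_eq_zero] using this

include hs in
lemma B_ext {M : Type*} [AddCommGroup M] [Module ℚ M]
    (n : ℕ) {f g : B n →ₗ[ℚ] M} (h : ∀ x, f (s n x) = g (s n x)) (z : B n) :
    f z = g z := by
  have := B_mem hs n (f - g) ⊥ (fun x => by simp [h x]) z
  simpa [sub_eq_zero] using this

include hd2 in
lemma diff2_s (j : ℕ) (x : X) (ω : Lam V j) :
    diff2 d2 j (s 0 x ⊗ₜ ω) = wdg2 V j (ww V (b x) (a x)) ω := by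
  simp [diff2, hd2]

include hdS in
lemma diffS_s (n j : ℕ) (x : X) (ω : Lam V j) :
    diffS dS n j (s (n + 1) x ⊗ₜ ω) = s n x ⊗ₜ wdg V j (a x) ω := by
  simp [diffS, hdS]

variable {S : Type u} [CommRing S] [Algebra ℚ S] (P : PolyModel V S)

/-- `κ_m : B_m → S ⊗ Λ²`. -/
noncomputable def kap (d2 : B 0 →ₗ[ℚ] Lam V 2) (dS : ∀ n, B (n + 1) →ₗ[ℚ] B n ⊗[ℚ] V) :
    ∀ n, B n →ₗ[ℚ] S ⊗[ℚ] Lam V 2
  | 0 => TensorProduct.mk ℚ S (Lam V 2) 1 ∘ₗ d2
  | (n + 1) => P.Mop (Y := Lam V 2) LinearMap.id ∘ₗ (rho S (Lam V 2) V).toLinearMap ∘ₗ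
      (kap d2 dS n).rTensor V ∘ₗ dS n

include hd2 hdS in
lemma kap_s (m : ℕ) (x : X) : kap P d2 dS m (s m x) = (P.l (a x) ^ m) ⊗ₜ ww V (b x) (a x) := by
  induction m with
  | zero => simp [kap, hd2]
  | succ m ih =>
    rw [kap, LinearMap.comp_apply, LinearMap.comp_apply, LinearMap.comp_apply, hdS,
      LinearMap.rTensor_tmul, ih, LinearEquiv.coe_coe, rho_tmul, PolyModel.Mop_tmul,
      LinearMap.id_apply, PolyModel.mulAux_tmul, pow_succ]

include hs hd2 hdS in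
lemma kap_step (m : ℕ) (z : B (m + 1)) :
    P.Dop (TensorProduct.mk ℚ V (Lam V 2)) (kap P d2 dS (m + 1) z) =
      ((m : ℚ) + 1) • rho S (Lam V 2) V ((kap P d2 dS m).rTensor V (dS m z)) := by
  refine B_ext hs (m + 1) (f := P.Dop (TensorProduct.mk ℚ V (Lam V 2)) ∘ₗ kap P d2 dS (m + 1))
    (g := ((m : ℚ) + 1) • ((rho S (Lam V 2) V).toLinearMap ∘ₗ
      (kap P d2 dS m).rTensor V ∘ₗ dS m)) (fun x => ?_) z
  rw [LinearMap.comp_apply, kap_s hd2 hdS, PolyModel.Dop_pow, LinearMap.smul_apply,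
    LinearMap.comp_apply, LinearMap.comp_apply, hdS, LinearMap.rTensor_tmul,
    kap_s hd2 hdS, LinearEquiv.coe_coe, rho_tmul, TensorProduct.mk_apply]

include hs hd2 hdS in
lemma kap_injective [Nontrivial S] (id2 : Function.Injective d2)
    (idS : ∀ n, Function.Injective (dS n)) (m : ℕ) : Function.Injective (kap P d2 dS m) := by
  induction m with
  | zero =>
    rw [← LinearMap.ker_eq_bot, LinearMap.ker_eq_bot']
    intro z hz
    have h1 : d2 z = 0 := one_tmul_inj (S := S) _ hz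
    exact id2 (h1.trans (map_zero _).symm)
  | succ m ih =>
    rw [← LinearMap.ker_eq_bot, LinearMap.ker_eq_bot']
    intro z hz
    have h2 := kap_step hs hd2 hdS P m z
    rw [hz, map_zero] at h2
    have hm : ((m : ℚ) + 1) ≠ 0 := by positivity
    have h3 := (smul_eq_zero.mp h2.symm).resolve_left hm
    have h4 := (LinearEquiv.map_eq_zero_iff _).mp h3
    have h5 := (Module.Flat.rTensor_preserves_injective_linearMap (M := V) _ ih)
      (h4.trans (map_zero _).symm)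
    exact idS m (h5.trans (map_zero _).symm)

/-- The spanning property. -/
def SpanProp (a b : X → V) : Prop :=
  ∀ (N : ℕ) (T : MultilinearMap ℚ (fun _ : Fin (N + 1) => V) ℚ),
    (∀ x : X, T (Fin.cons (b x) (fun _ => a x) : Fin (N + 1) → V) = 0) →
    ∀ u v : V, T (Fin.cons u (fun _ => v) : Fin (N + 1) → V) = 0

include hd2 hdS in
lemma symbols_mem_range (hS : SpanProp a b) (m : ℕ) (u v : V) :
    ∃ y, kap P d2 dS m y = (P.l v ^ m) ⊗ₜ[ℚ] ww V u v := by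
  have h : (P.l v ^ m) ⊗ₜ[ℚ] ww V u v ∈ LinearMap.range (kap P d2 dS m) := by
    by_contra hmem
    obtain ⟨φ, hφ, hN⟩ := Submodule.exists_le_ker_of_notMem hmem
    apply hφ
    rw [← multiT_cons]
    refine hS (m + 1) (multiT P m φ) ?_ u v
    intro x
    rw [multiT_cons, ← kap_s hd2 hdS]
    exact hN ⟨_, rfl⟩
  exact h

/-- `κ_m ⊗ 1 : B_m ⊗ Λ^j → S ⊗ (Λ² ⊗ Λ^j)`. -/
noncomputable def kapL (d2 : B 0 →ₗ[ℚ] Lam V 2) (dS : ∀ n, B (n + 1) →ₗ[ℚ] B n ⊗[ℚ] V)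
    (m j : ℕ) : B m ⊗[ℚ] Lam V j →ₗ[ℚ] S ⊗[ℚ] (Lam V 2 ⊗[ℚ] Lam V j) :=
  (TensorProduct.assoc ℚ S (Lam V 2) (Lam V j)).toLinearMap ∘ₗ
    (kap P d2 dS m).rTensor (Lam V j)

include hs hd2 hdS in
lemma kapL_injective [Nontrivial S] (id2 : Function.Injective d2)
    (idS : ∀ n, Function.Injective (dS n)) (m j : ℕ) :
    Function.Injective (kapL P d2 dS m j) := by
  rw [kapL, LinearMap.coe_comp]
  exact (LinearEquiv.injective _).comp
    (Module.Flat.rTensor_preserves_injective_linearMap (M := Lam V j)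
      _ (kap_injective hs hd2 hdS P id2 idS m))

lemma kapL_tmul_of (m j : ℕ) (y : B m) (t : S) (x : Lam V 2) (ω : Lam V j)
    (h : kap P d2 dS m y = t ⊗ₜ x) : kapL P d2 dS m j (y ⊗ₜ ω) = t ⊗ₜ (x ⊗ₜ ω) := by
  rw [kapL, LinearMap.comp_apply, LinearMap.rTensor_tmul, h]
  simp

include hd2 hdS in
lemma kapL_s (m j : ℕ) (x : X) (ω : Lam V j) : kapL P d2 dS m j (s m x ⊗ₜ ω) =
      (P.l (a x) ^ m) ⊗ₜ (ww V (b x) (a x) ⊗ₜ ω) :=
  kapL_tmul_of P m j _ _ _ _ (kap_s hd2 hdS P m x)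

include hs hd2 hdS in
/-- every element of the image of `κ ⊗ 1` is `d_1` of something. -/
lemma kapL_exists (m j : ℕ) (z : B m ⊗[ℚ] Lam V j) :
    ∃ x ∈ P.KK (m + 1) (V ⊗[ℚ] Lam V j), P.Dop (ext11 V j) x = kapL P d2 dS m j z := by
  refine BL_mem hs m (kapL P d2 dS m j)
    ((P.KK (m + 1) (V ⊗[ℚ] Lam V j)).map (P.Dop (ext11 V j))) ?_ z
  intro x ω
  rw [kapL_s hd2 hdS]
  refine ⟨(-((m : ℚ) + 1)⁻¹) • ((P.l (a x) ^ (m + 1)) ⊗ₜ (b x ⊗ₜ ω)),
    Submodule.smul_mem _ _ (P.mem_KK _ _ _), ?_⟩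
  have hm : ((m : ℚ) + 1) ≠ 0 := by positivity
  rw [map_smul, PolyModel.Dop_pow, smul_smul, neg_mul, inv_mul_cancel₀ hm, ext11_tmul, ww_swap,
    neg_one_smul, TensorProduct.neg_tmul, TensorProduct.tmul_neg]
  simp

include hd2 hdS in
/-- every `d_1 x` is in the image of `κ ⊗ 1`. -/
lemma kapL_surj (hS : SpanProp a b) (m j : ℕ)
    {x : S ⊗[ℚ] (V ⊗[ℚ] Lam V j)} (hx : x ∈ P.KK (m + 1) (V ⊗[ℚ] Lam V j)) :
    ∃ z : B m ⊗[ℚ] Lam V j, kapL P d2 dS m j z = P.Dop (ext11 V j) x := by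
  have h : P.Dop (ext11 V j) x ∈ LinearMap.range (kapL P d2 dS m j) := by
    refine P.KK_map_le (N := LinearMap.range (kapL P d2 dS m j)) (fun v y => ?_) hx
    rw [PolyModel.Dop_pow]
    apply Submodule.smul_mem
    induction y using TensorProduct.induction_on with
    | zero => simp
    | tmul u ω =>
      obtain ⟨y, hy⟩ := symbols_mem_range hd2 hdS P hS m u v
      exact ⟨-(y ⊗ₜ ω), by rw [map_neg, kapL_tmul_of P m j y _ _ ω hy, ext11_tmul, ww_swap v u,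
        TensorProduct.neg_tmul, TensorProduct.tmul_neg]⟩
    | add a b ha hb =>
      rw [map_add, TensorProduct.tmul_add]
      exact Submodule.add_mem _ ha hb
  exact h

include hs hd2 hdS in
lemma kapL_diffS (m j : ℕ) (z : B (m + 1) ⊗[ℚ] Lam V j) :
    P.Dop (ext2 V (Lam V 2) j) (kapL P d2 dS (m + 1) j z) =
      ((m : ℚ) + 1) • kapL P d2 dS m (j + 1) (diffS dS m j z) := by
  refine BL_ext hs (m + 1) (f := P.Dop (ext2 V (Lam V 2) j) ∘ₗ kapL P d2 dS (m + 1) j)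
    (g := ((m : ℚ) + 1) • (kapL P d2 dS m (j + 1) ∘ₗ diffS dS m j)) (fun x ω => ?_) z
  rw [LinearMap.comp_apply, LinearMap.smul_apply, LinearMap.comp_apply,
    kapL_s hd2 hdS, PolyModel.Dop_pow, diffS_s hdS, kapL_s hd2 hdS, ext2_tmul]

include hs hd2 hdS in
lemma kapL_diff2 (j : ℕ) (z : B 0 ⊗[ℚ] Lam V j) :
    (TensorProduct.lift (wdg2 V j)).lTensor S (kapL P d2 dS 0 j z) =
      (1 : S) ⊗ₜ diff2 d2 j z := by
  refine BL_ext hs 0 (f := (TensorProduct.lift (wdg2 V j)).lTensor S ∘ₗ kapL P d2 dS 0 j)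
    (g := TensorProduct.mk ℚ S (Lam V (j + 2)) 1 ∘ₗ diff2 d2 j) (fun x ω => ?_) z
  rw [LinearMap.comp_apply, LinearMap.comp_apply, kapL_s hd2 hdS, diff2_s hd2,
    LinearMap.lTensor_tmul, TensorProduct.lift.tmul, pow_zero]
  rfl

include hs hdS in
/-- `d² = 0`. -/
lemma diffS_diffS (n j : ℕ) (z : B (n + 2) ⊗[ℚ] Lam V j) :
    diffS dS n (j + 1) (diffS dS (n + 1) j z) = 0 := by
  refine BL_ext hs (n + 2) (f := diffS dS n (j + 1) ∘ₗ diffS dS (n + 1) j) (g := 0)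
    (fun x ω => ?_) z
  rw [LinearMap.comp_apply, diffS_s hdS, diffS_s hdS, wdg_wdg_same]
  simp

include hs hd2 hdS in
/-- `d² = 0`. -/
lemma diff2_diffS (j : ℕ) (z : B 1 ⊗[ℚ] Lam V j) :
    diff2 d2 (j + 1) (diffS dS 0 j z) = 0 := by
  refine BL_ext hs 1 (f := diff2 d2 (j + 1) ∘ₗ diffS dS 0 j) (g := 0)
    (fun x ω => ?_) z
  rw [LinearMap.comp_apply, diffS_s hdS, diff2_s hd2, wdg2_ww, wdg_wdg_same]
  simp

variable (id2 : Function.Injective d2) (idS : ∀ n, Function.Injective (dS n))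
  (hS : SpanProp a b)

include hs hd2 hdS id2 idS hS

/-- Exactness at `B (n+1) ⊗ Λ^{j+1}`. -/
theorem exact_mid (n j : ℕ) :
    Function.Exact (diffS dS (n + 1) j) (diffS dS n (j + 1)) := by
  intro z
  constructor
  · intro hz
    obtain ⟨x, hx, hx2⟩ := kapL_exists hs hd2 hdS (polyModel V) (n + 1) (j + 1) z
    have h1 := kapL_diffS hs hd2 hdS (polyModel V) n (j + 1) z
    rw [hz, map_zero, smul_zero, ← hx2] at h1
    obtain ⟨x', hx', h3⟩ := (polyModel V).exact_pos_succ n j hx h1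
    obtain ⟨z', hz'⟩ := kapL_surj hd2 hdS (polyModel V) hS (n + 2) j hx'
    have h4 := kapL_diffS hs hd2 hdS (polyModel V) (n + 1) j z'
    have h5 : kapL (polyModel V) d2 dS (n + 1) (j + 1) z =
        kapL (polyModel V) d2 dS (n + 1) (j + 1)
          ((((n + 1 : ℕ) : ℚ) + 1) • diffS dS (n + 1) j z') := by
      rw [map_smul, ← h4, hz', ← h3, hx2]
    have h6 := kapL_injective hs hd2 hdS (polyModel V) id2 idS (n + 1) (j + 1) h5
    refine ⟨(((n + 1 : ℕ) : ℚ) + 1) • z', ?_⟩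
    rw [h6, map_smul]
  · rintro ⟨z', rfl⟩
    exact diffS_diffS hs hdS n j z'

/-- Exactness at `B 0 ⊗ Λ^{j+1}`. -/
theorem exact_two (j : ℕ) : Function.Exact (diffS dS 0 j) (diff2 d2 (j + 1)) := by
  intro z
  constructor
  · intro hz
    obtain ⟨x, hx, hx2⟩ := kapL_exists hs hd2 hdS (polyModel V) 0 (j + 1) z
    have h1 := kapL_diff2 hs hd2 hdS (polyModel V) (j + 1) z
    rw [hz, TensorProduct.tmul_zero, ← hx2] at h1
    obtain ⟨x', hx', h3⟩ := (polyModel V).exact_zero_succ j hx h1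
    obtain ⟨z', hz'⟩ := kapL_surj hd2 hdS (polyModel V) hS 1 j hx'
    have h4 := kapL_diffS hs hd2 hdS (polyModel V) 0 j z'
    have h5 : kapL (polyModel V) d2 dS 0 (j + 1) z =
        kapL (polyModel V) d2 dS 0 (j + 1) (diffS dS 0 j z') := by
      have h7 : (((0 : ℕ) : ℚ) + 1) = 1 := by norm_num
      rw [h7, one_smul] at h4
      rw [← h4, hz', ← h3, hx2]
    exact ⟨z', (kapL_injective hs hd2 hdS (polyModel V) id2 idS 0 (j + 1) h5).symm⟩
  · rintro ⟨z', rfl⟩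
    exact diff2_diffS hs hd2 hdS j z'

omit hs hd2 hdS id2 hS in
/-- Injectivity at the first place. -/
theorem inj_S (n : ℕ) : Function.Injective (diffS dS n 0) := by
  rw [diffS, LinearMap.coe_comp, LinearMap.coe_comp]
  refine (Module.Flat.lTensor_preserves_injective_linearMap (M := B n) _
    (lift_wdg_zero_injective V)).comp ((LinearEquiv.injective _).comp ?_)
  exact Module.Flat.rTensor_preserves_injective_linearMap (M := Lam V 0) _ (idS n)

omit hs hd2 hdS idS hS in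
/-- Injectivity at the first place. -/
theorem inj_2 : Function.Injective (diff2 d2 0) := by
  rw [diff2, LinearMap.coe_comp]
  exact (lift_wdg2_zero_injective V).comp
    (Module.Flat.rTensor_preserves_injective_linearMap (M := Lam V 0) _ id2)

omit hs id2 idS in
/-- Surjectivity at the last place. -/
theorem surj_2 (j : ℕ) : Function.Surjective (diff2 d2 j) := by
  rw [← LinearMap.range_eq_top, eq_top_iff]
  intro ω _
  refine Lam_span (j + 2) (LinearMap.range (diff2 d2 j)) (fun w => ?_) ω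
  obtain ⟨y, hy⟩ := symbols_mem_range hd2 hdS (polyModel V) hS 0 (w 0) (w 1)
  have h1 : kap (polyModel V) d2 dS 0 y = (1 : PolyRing V) ⊗ₜ[ℚ] d2 y := rfl
  rw [h1, pow_zero] at hy
  have h2 : (1 : PolyRing V) ⊗ₜ[ℚ] (d2 y - ww V (w 0) (w 1)) = 0 := by
    rw [TensorProduct.tmul_sub, hy, sub_self]
  have h3 := sub_eq_zero.mp (one_tmul_inj (Lam V 2) h2)
  refine ⟨y ⊗ₜ iota j (fun i => w i.succ.succ), ?_⟩
  rw [diff2, LinearMap.comp_apply, LinearMap.rTensor_tmul, h3, TensorProduct.lift.tmul,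
    wdg2_ww, wdg_iota, wdg_iota]
  congr 1
  funext i
  refine Fin.cases ?_ (fun i => ?_) i
  · rfl
  · refine Fin.cases ?_ (fun i => ?_) i
    · rfl
    · rfl

end main

end Pool.Agent.Helper91.Gon.Abs
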