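import Pool.Agent.Helper91.Gon.Kappa

/-!
Exactness of the polylogarithmic complexes from rigidity (`R_n = A_n`) and the spanning theorem.
-/

namespace Pool.Agent.Helper91.Gon

open scoped TensorProduct
open TensorProduct

universe u

/-- The conclusion of the spanning theorem for the field `F`. -/
def Spans (F : Type u) [Field F] : Prop :=
  ∀ (N : ℕ) (T : MultilinearMap ℚ (fun _ : Fin (N + 1) => ℚ ⊗[ℤ] (Additive Fˣ)) ℚ),
    (∀ f g : Fˣ, (f : F) + g = 1 →
      T (Fin.cons ((1 : ℚ) ⊗ₜ[ℤ] Additive.ofMul g) (fun _ => (1 : ℚ) ⊗ₜ[ℤ] Additive.ofMul f) :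
        Fin (N + 1) → ℚ ⊗[ℤ] (Additive Fˣ)) = 0) →
    ∀ u v : ℚ ⊗[ℤ] (Additive Fˣ),
      T (Fin.cons u (fun _ => v) : Fin (N + 1) → ℚ ⊗[ℤ] (Additive Fˣ)) = 0

section multi

variable {V : Type*} [AddCommGroup V] [Module ℚ V] {S : Type*} [CommRing S] [Algebra ℚ S]

/-- `(v_i) ↦ ∏ l(v_i)`. -/
noncomputable def prodM (P : PolyModel V S) (m : ℕ) : MultilinearMap ℚ (fun _ : Fin m => V) S :=
  (MultilinearMap.mkPiAlgebra ℚ (Fin m) S).compLinearMap (fun _ => P.l)

/-- `ω ↦ ((v_i) ↦ φ (∏ l(v_i) ⊗ ω))`. -/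
noncomputable def multiL (P : PolyModel V S) (m : ℕ) (φ : S ⊗[ℚ] Lam V 2 →ₗ[ℚ] ℚ) :
    Lam V 2 →ₗ[ℚ] MultilinearMap ℚ (fun _ : Fin m => V) ℚ where
  toFun ω := (φ ∘ₗ (TensorProduct.mk ℚ S (Lam V 2)).flip ω).compMultilinearMap (prodM P m)
  map_add' := by
    intro a b
    ext v
    simp
  map_smul' := by
    intro c a
    ext v
    simp

/-- `(u, v, v_1, ..., v_m) ↦ φ (∏ l(v_i) ⊗ (u ∧ v))`. -/
noncomputable def multiT (P : PolyModel V S) (m : ℕ) (φ : S ⊗[ℚ] Lam V 2 →ₗ[ℚ] ℚ) :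
    MultilinearMap ℚ (fun _ : Fin (m + 1 + 1) => V) ℚ :=
  LinearMap.uncurryLeft
    ((multilinearCurryLeftEquiv ℚ (fun _ : Fin (m + 1) => V) ℚ).symm.toLinearMap ∘ₗ
      (ww V).compr₂ (multiL P m φ))

lemma multiT_cons (P : PolyModel V S) (m : ℕ) (φ : S ⊗[ℚ] Lam V 2 →ₗ[ℚ] ℚ) (u v : V) :
    multiT P m φ (Fin.cons u (fun _ => v) : Fin (m + 1 + 1) → V) =
      φ ((P.l v ^ m) ⊗ₜ ww V u v) := by
  simp [multiT, multiL, prodM, Fin.tail]

end multi

section span

variable {F : Type u} [Field F] {S : Type u} [CommRing S] [Algebra ℚ S] (P : PolyModel (VF F) S)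

lemma symbols_mem_range (hS : Spans F) (m : ℕ) (u v : VF F) :
    (P.l v ^ m) ⊗ₜ[ℚ] ww (VF F) u v ∈ LinearMap.range (kap P m) := by
  by_contra hmem
  obtain ⟨φ, hφ, hN⟩ := Submodule.exists_le_ker_of_notMem hmem
  apply hφ
  rw [← multiT_cons]
  refine hS (m + 1) (multiT P m φ) ?_ u v
  intro f g hfg
  rw [multiT_cons, ← lg_unit, ← lg_unit]
  have h1 : (g : F) = 1 - (f : F) := by
    rw [← hfg]
    ring
  rw [h1, ← kap_gen P m (f : F)]
  exact hN ⟨_, rfl⟩

variable {P} in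
lemma kapB_symbol (hR : ∀ n, R (n + 2) F = LinearMap.ker (kap P n)) (hS : Spans F) (m : ℕ)
    (u v : VF F) : ∃ y : B (m + 2) F, kapB P m y = (P.l v ^ m) ⊗ₜ[ℚ] ww (VF F) u v := by
  obtain ⟨α, hα⟩ := symbols_mem_range P hS m u v
  refine ⟨(R (m + 2) F).mkQ α, ?_⟩
  rw [kapB, descend_mk (hR m).le, hα]

/-- `κ_m ⊗ 1 : B_{m+2} ⊗ Λ^b → S ⊗ (Λ² ⊗ Λ^b)`. -/
noncomputable def kapL (m b : ℕ) :
    B (m + 2) F ⊗[ℚ] Lam (VF F) b →ₗ[ℚ] S ⊗[ℚ] (Lam (VF F) 2 ⊗[ℚ] Lam (VF F) b) :=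
  (TensorProduct.assoc ℚ S (Lam (VF F) 2) (Lam (VF F) b)).toLinearMap ∘ₗ
    (kapB P m).rTensor (Lam (VF F) b)

lemma kapL_injective (hR : ∀ n, R (n + 2) F = LinearMap.ker (kap P n)) (m b : ℕ) :
    Function.Injective (kapL P m b) := by
  rw [kapL, LinearMap.coe_comp]
  exact (LinearEquiv.injective _).comp
    (Module.Flat.rTensor_preserves_injective_linearMap (M := Lam (VF F) b)
      (kapB P m) (kapB_injective P m (hR m)))

lemma kapL_tmul_of (m b : ℕ) (y : B (m + 2) F) (s : S) (x : Lam (VF F) 2) (ω : Lam (VF F) b)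
    (h : kapB P m y = s ⊗ₜ x) : kapL P m b (y ⊗ₜ ω) = s ⊗ₜ (x ⊗ₜ ω) := by
  rw [kapL, LinearMap.comp_apply, LinearMap.rTensor_tmul, h]
  simp

lemma kapL_cl (hR : ∀ n, R (n + 2) F = LinearMap.ker (kap P n)) (m b : ℕ) (x : F)
    (ω : Lam (VF F) b) : kapL P m b (cl (m + 2) (x : OnePoint F) ⊗ₜ ω) =
      (P.l (lg x) ^ m) ⊗ₜ (ww (VF F) (lg (1 - x)) (lg x) ⊗ₜ ω) :=
  kapL_tmul_of P m b _ _ _ _ (kapB_cl P m (hR m).le x)

lemma BL_mem {n : ℕ} {L M : Type*} [AddCommGroup L] [Module ℚ L] [AddCommGroup M] [Module ℚ M]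
    (f : B (n + 1) F ⊗[ℚ] L →ₗ[ℚ] M) (N : Submodule ℚ M)
    (h : ∀ (x : F) (ω : L), f (cl (n + 1) (x : OnePoint F) ⊗ₜ ω) ∈ N) (z : B (n + 1) F ⊗[ℚ] L) :
    f z ∈ N := by
  have h1 : N.mkQ ∘ₗ f = 0 := by
    apply BL_hom_ext
    intro x ω
    rw [LinearMap.comp_apply, Submodule.mkQ_apply, LinearMap.zero_apply,
      Submodule.Quotient.mk_eq_zero]
    exact h x ω
  have h2 := LinearMap.congr_fun h1 z
  rwa [LinearMap.comp_apply, Submodule.mkQ_apply, LinearMap.zero_apply,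
      Submodule.Quotient.mk_eq_zero] at h2

/-- every element of the image of `κ ⊗ 1` is `d_1` of something. -/
lemma kapL_exists (hR : ∀ n, R (n + 2) F = LinearMap.ker (kap P n)) (m b : ℕ)
    (z : B (m + 2) F ⊗[ℚ] Lam (VF F) b) :
    ∃ x ∈ P.KK (m + 1) (VF F ⊗[ℚ] Lam (VF F) b), P.Dop (ext11 (VF F) b) x = kapL P m b z := by
  refine BL_mem (kapL P m b)
    ((P.KK (m + 1) (VF F ⊗[ℚ] Lam (VF F) b)).map (P.Dop (ext11 (VF F) b))) ?_ z
  intro x ω
  rw [kapL_cl P hR]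
  refine ⟨(-((m : ℚ) + 1)⁻¹) • ((P.l (lg x) ^ (m + 1)) ⊗ₜ (lg (1 - x) ⊗ₜ ω)),
    Submodule.smul_mem _ _ (P.mem_KK _ _ _), ?_⟩
  have hm : ((m : ℚ) + 1) ≠ 0 := by positivity
  rw [map_smul, PolyModel.Dop_pow, smul_smul, neg_mul, inv_mul_cancel₀ hm, ext11_tmul, ww_swap,
    neg_one_smul, TensorProduct.neg_tmul, TensorProduct.tmul_neg]
  simp

variable {P} in
/-- every `d_1 x` is in the image of `κ ⊗ 1`. -/
lemma kapL_surj (hR : ∀ n, R (n + 2) F = LinearMap.ker (kap P n)) (hS : Spans F) (m b : ℕ)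
    {x : S ⊗[ℚ] (VF F ⊗[ℚ] Lam (VF F) b)} (hx : x ∈ P.KK (m + 1) (VF F ⊗[ℚ] Lam (VF F) b)) :
    ∃ z : B (m + 2) F ⊗[ℚ] Lam (VF F) b, kapL P m b z = P.Dop (ext11 (VF F) b) x := by
  have h : P.Dop (ext11 (VF F) b) x ∈ LinearMap.range (kapL P m b) := by
    refine P.KK_map_le (N := LinearMap.range (kapL P m b)) (fun v y => ?_) hx
    rw [PolyModel.Dop_pow]
    apply Submodule.smul_mem
    induction y using TensorProduct.induction_on with
    | zero => simp
    | tmul u ω =>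
      obtain ⟨y, hy⟩ := kapB_symbol hR hS m u v
      exact ⟨-(y ⊗ₜ ω), by rw [map_neg, kapL_tmul_of P m b y _ _ ω hy, ext11_tmul, ww_swap v u,
        TensorProduct.neg_tmul, TensorProduct.tmul_neg]⟩
    | add a b ha hb =>
      rw [map_add, TensorProduct.tmul_add]
      exact Submodule.add_mem _ ha hb
  exact h

variable {P} in
lemma kapL_diffS (hR : ∀ n, R (n + 2) F = LinearMap.ker (kap P n))
    (hA : ∀ n, R (n + 2) F ≤ A (n + 2) F) (m b : ℕ) (z : B (m + 3) F ⊗[ℚ] Lam (VF F) b) :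
    P.Dop (ext2 (VF F) (Lam (VF F) 2) b) (kapL P (m + 1) b z) =
      ((m : ℚ) + 1) • kapL P m (b + 1) (diffS m b F z) := by
  have key : P.Dop (ext2 (VF F) (Lam (VF F) 2) b) ∘ₗ kapL P (m + 1) b =
      ((m : ℚ) + 1) • (kapL P m (b + 1) ∘ₗ diffS m b F) := by
    apply BL_hom_ext
    intro x ω
    have hA' := hA (m + 1)
    rw [LinearMap.comp_apply, LinearMap.smul_apply, LinearMap.comp_apply]
    erw [kapL_cl P hR (m + 1) b x ω]
    rw [PolyModel.Dop_pow, diffS_cl m b hA', kapL_cl P hR, ext2_tmul]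
  exact LinearMap.congr_fun key z

variable {P} in
lemma kapL_diff2 (hR : ∀ n, R (n + 2) F = LinearMap.ker (kap P n))
    (hA : ∀ n, R (n + 2) F ≤ A (n + 2) F) (b : ℕ) (z : B 2 F ⊗[ℚ] Lam (VF F) b) :
    (TensorProduct.lift (wdg2 (VF F) b)).lTensor S (kapL P 0 b z) =
      (1 : S) ⊗ₜ diff2 b F z := by
  have key : (TensorProduct.lift (wdg2 (VF F) b)).lTensor S ∘ₗ kapL P 0 b =
      TensorProduct.mk ℚ S (Lam (VF F) (b + 2)) 1 ∘ₗ diff2 b F := by
    apply BL_hom_ext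
    intro x ω
    have hA' := hA 0
    rw [LinearMap.comp_apply, LinearMap.comp_apply]
    erw [kapL_cl P hR 0 b x ω]
    rw [diff2_cl b hA', LinearMap.lTensor_tmul, TensorProduct.lift.tmul, pow_zero]
    rfl
  exact LinearMap.congr_fun key z

end span

section exactness

variable {F : Type u} [Field F] (hA : ∀ n, R (n + 2) F = A (n + 2) F)

include hA

lemma hR_of_hA (n : ℕ) : R (n + 2) F = LinearMap.ker (kap (polyModel (VF F)) n) := by
  rw [ker_kap (polyModel (VF F)) hA n, hA]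

/-- Exactness at `B_{c+3} ⊗ Λ^{b+1}`. -/
theorem exact_mid (hS : Spans F) (c b : ℕ) :
    Function.Exact (diffS (c + 1) b F) (diffS c (b + 1) F) := by
  intro z
  constructor
  · intro hz
    have hR := hR_of_hA hA
    set P := polyModel (VF F) with hP
    obtain ⟨x, hx, hx2⟩ := kapL_exists P hR (c + 1) (b + 1) z
    have h1 := kapL_diffS (P := P) hR (fun n => (hA n).le) c (b + 1) z
    rw [hz, map_zero, smul_zero] at h1
    have h2 : P.Dop (ext2 (VF F) (Lam (VF F) 2) (b + 1)) (P.Dop (ext11 (VF F) (b + 1)) x) = 0 := by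
      rw [hx2]
      exact h1
    obtain ⟨x', hx', h3⟩ := P.exact_pos_succ c b hx h2
    obtain ⟨z', hz'⟩ := kapL_surj hR hS (c + 2) b hx'
    have h4 := kapL_diffS (P := P) hR (fun n => (hA n).le) (c + 1) b z'
    have h5 : kapL P (c + 1) (b + 1) z =
        kapL P (c + 1) (b + 1) ((((c + 1 : ℕ) : ℚ) + 1) • diffS (c + 1) b F z') := by
      rw [map_smul, ← h4]
      erw [hz']
      rw [← h3, hx2]
    have h6 := kapL_injective P hR (c + 1) (b + 1) h5
    refine ⟨(((c + 1 : ℕ) : ℚ) + 1) • z', ?_⟩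
    rw [h6, map_smul]
  · rintro ⟨z', rfl⟩
    exact LinearMap.congr_fun (diffS_diffS c b) z'

/-- Exactness at `B_2 ⊗ Λ^{b+1}`. -/
theorem exact_two (hS : Spans F) (b : ℕ) :
    Function.Exact (diffS 0 b F) (diff2 (b + 1) F) := by
  intro z
  constructor
  · intro hz
    have hR := hR_of_hA hA
    set P := polyModel (VF F) with hP
    obtain ⟨x, hx, hx2⟩ := kapL_exists P hR 0 (b + 1) z
    have h1 := kapL_diff2 (P := P) hR (fun n => (hA n).le) (b + 1) z
    rw [hz, TensorProduct.tmul_zero, ← hx2] at h1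
    obtain ⟨x', hx', h3⟩ := P.exact_zero_succ b hx h1
    obtain ⟨z', hz'⟩ := kapL_surj hR hS 1 b hx'
    have h4 := kapL_diffS (P := P) hR (fun n => (hA n).le) 0 b z'
    have h5 : kapL P 0 (b + 1) z = kapL P 0 (b + 1) (diffS 0 b F z') := by
      have h7 : (((0 : ℕ) : ℚ) + 1) = 1 := by norm_num
      rw [h7, one_smul] at h4
      rw [← h4]
      erw [hz']
      rw [← h3, hx2]
    exact ⟨z', (kapL_injective P hR 0 (b + 1) h5).symm⟩
  · rintro ⟨z', rfl⟩
    exact LinearMap.congr_fun (diff2_diffS b) z'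

lemma dB_injective (c : ℕ) : Function.Injective (dB c F) := by
  have h : R (c + 3) F = LinearMap.ker (deltaS (c + 2) F) := hA (c + 1)
  rw [← LinearMap.ker_eq_bot, dB, descend, dif_pos h.le, Submodule.ker_liftQ_eq_bot _ _ _ h.ge]

lemma dB2_injective : Function.Injective (dB2 F) := by
  have h : R 2 F = LinearMap.ker (delta2 F) := hA 0
  rw [← LinearMap.ker_eq_bot, dB2, descend, dif_pos h.le, Submodule.ker_liftQ_eq_bot _ _ _ h.ge]

omit hA in
lemma lift_wdg_zero_injective (V : Type*) [AddCommGroup V] [Module ℚ V] :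
    Function.Injective (TensorProduct.lift (wdg V 0)) := by
  have h : cml V 0 ∘ₗ TensorProduct.lift (wdg V 0) = LinearMap.id := by
    apply TensorProduct.ext'
    intro v ω
    rw [LinearMap.comp_apply, TensorProduct.lift.tmul, cml_wdg_zero, LinearMap.id_apply]
  exact Function.LeftInverse.injective (g := cml V 0) (fun x => LinearMap.congr_fun h x)

/-- Injectivity at the first place, weight `≥ 3`. -/
theorem inj_S (c : ℕ) : Function.Injective (diffS c 0 F) := by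
  rw [diffS, LinearMap.coe_comp, LinearMap.coe_comp]
  refine (Module.Flat.lTensor_preserves_injective_linearMap (M := B (c + 2) F) _
    (lift_wdg_zero_injective (VF F))).comp ((LinearEquiv.injective _).comp ?_)
  exact Module.Flat.rTensor_preserves_injective_linearMap (M := Lam (VF F) 0) _
    (dB_injective hA c)

omit hA in
/-- the class of `v_0 ∧ ... ∧ v_{n-1}`. -/
noncomputable def iota {V : Type*} [AddCommGroup V] [Module ℚ V] (n : ℕ) (w : Fin n → V) :
    Lam V n := exteriorPower.ιMulti ℚ n w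

omit hA in
lemma wdg_iota {V : Type*} [AddCommGroup V] [Module ℚ V] (n : ℕ) (v : V) (w : Fin n → V) :
    wdg V n v (iota n w) = iota (n + 1) (Matrix.vecCons v w) := wedge_ιMulti n v w

omit hA in
lemma iota_two {V : Type*} [AddCommGroup V] [Module ℚ V] (v u : V) :
    iota 2 ![v, u] = ww V v u := (w2_apply v u).symm

omit hA in
lemma Lam_zero {V : Type*} [AddCommGroup V] [Module ℚ V] (ω : Lam V 0) (w : Fin 0 → V) :
    ∃ c : ℚ, ω = c • iota 0 w := by
  refine ⟨exteriorPower.zeroEquiv ℚ V ω, ?_⟩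
  apply (exteriorPower.zeroEquiv ℚ V).injective
  erw [map_smul]
  erw [exteriorPower.zeroEquiv_ιMulti]
  simp

omit hA in
lemma Lam_span {V : Type*} [AddCommGroup V] [Module ℚ V] (n : ℕ) (N : Submodule ℚ (Lam V n))
    (h : ∀ w, iota n w ∈ N) (ω : Lam V n) : ω ∈ N := by
  have h1 : Submodule.span ℚ (Set.range (exteriorPower.ιMulti ℚ n (M := V))) = ⊤ :=
    exteriorPower.ιMulti_span ℚ n V
  have h2 : (⊤ : Submodule ℚ (⋀[ℚ]^n V)) ≤ N := by
    rw [← h1, Submodule.span_le]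
    rintro _ ⟨w, rfl⟩
    exact h w
  exact h2 (Submodule.mem_top)

omit hA in
lemma lift_wdg2_zero_injective (V : Type*) [AddCommGroup V] [Module ℚ V] :
    Function.Injective (TensorProduct.lift (wdg2 V 0)) := by
  let e : Lam V 0 := iota 0 ![]
  have h1 : TensorProduct.lift (wdg2 V 0) ∘ₗ (TensorProduct.mk ℚ (Lam V 2) (Lam V 0)).flip e =
      LinearMap.id := by
    apply liftL_ext
    intro v u
    change wdg2 V 0 (ww V v u) (iota 0 ![]) = ww V v u
    rw [wdg2_ww, wdg_iota, wdg_iota, iota_two]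
  have h2 : Function.Surjective ((TensorProduct.mk ℚ (Lam V 2) (Lam V 0)).flip e) := by
    intro z
    induction z using TensorProduct.induction_on with
    | zero => exact ⟨0, map_zero _⟩
    | tmul y ω =>
      obtain ⟨c, rfl⟩ := Lam_zero ω ![]
      refine ⟨c • y, ?_⟩
      simp [e, TensorProduct.smul_tmul]
    | add a b ha hb =>
      obtain ⟨a, rfl⟩ := ha
      obtain ⟨b, rfl⟩ := hb
      exact ⟨a + b, map_add _ _ _⟩
  intro x y hxy
  obtain ⟨x, rfl⟩ := h2 x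
  obtain ⟨y, rfl⟩ := h2 y
  have hx := LinearMap.congr_fun h1 x
  have hy := LinearMap.congr_fun h1 y
  rw [LinearMap.comp_apply, LinearMap.id_apply] at hx hy
  rw [← hx, ← hy, hxy]

/-- Injectivity at the first place, weight `2`. -/
theorem inj_2 : Function.Injective (diff2 0 F) := by
  rw [diff2, LinearMap.coe_comp]
  exact (lift_wdg2_zero_injective (VF F)).comp
    (Module.Flat.rTensor_preserves_injective_linearMap (M := Lam (VF F) 0) _
      (dB2_injective hA))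

/-- Surjectivity at the last place. -/
theorem surj_2 (hS : Spans F) (j : ℕ) : Function.Surjective (diff2 j F) := by
  rw [← LinearMap.range_eq_top, eq_top_iff]
  intro ω _
  refine Lam_span (j + 2) (LinearMap.range (diff2 j F)) (fun w => ?_) ω
  obtain ⟨α, hα⟩ := symbols_mem_range (polyModel (VF F)) hS 0 (w 0) (w 1)
  have h1 : kap (polyModel (VF F)) 0 α = (1 : PolyRing (VF F)) ⊗ₜ[ℚ] delta2 F α := by
    have h : kap (polyModel (VF F)) 0 =
        TensorProduct.mk ℚ (PolyRing (VF F)) (Lam (VF F) 2) 1 ∘ₗ delta2 F := by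
      apply QP_hom_ext
      · intro x
        rw [kap_gen, LinearMap.comp_apply, delta2_gen]
        simp
      · rw [kap_infty, LinearMap.comp_apply, delta2_infty, map_zero]
    rw [h]
    rfl
  rw [h1, pow_zero] at hα
  have h2 : (1 : PolyRing (VF F)) ⊗ₜ[ℚ] (delta2 F α - ww (VF F) (w 0) (w 1)) = 0 := by
    rw [TensorProduct.tmul_sub, hα, sub_self]
  have h3 := sub_eq_zero.mp (one_tmul_inj (Lam (VF F) 2) h2)
  refine ⟨(R 2 F).mkQ α ⊗ₜ iota j (fun i => w i.succ.succ), ?_⟩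
  have h4 : R 2 F = LinearMap.ker (delta2 F) := hA 0
  rw [diff2_tmul, dB2, descend_mk h4.le, h3, wdg2_ww, wdg_iota, wdg_iota]
  congr 1
  funext i
  refine Fin.cases ?_ (fun i => ?_) i
  · rfl
  · refine Fin.cases ?_ (fun i => ?_) i
    · rfl
    · rfl

end exactness

end Pool.Agent.Helper91.Gon
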