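import Pool.Agent.Helper91.Gon.Abs

/-!
Base change of exterior powers from `ℤ` to `ℚ`.
-/

namespace Pool.Agent.Helper91.Gon.BC

open scoped TensorProduct
open TensorProduct

universe u v

section ext

variable {M : Type u} [AddCommGroup M]

lemma exists_rep (v : ℚ ⊗[ℤ] M) : ∃ r : ℚ × M, v = r.1 ⊗ₜ[ℤ] r.2 := by
  induction v using TensorProduct.induction_on with
  | zero => exact ⟨(0, 0), by simp⟩
  | tmul q m => exact ⟨(q, m), rfl⟩
  | add x y hx hy =>
    obtain ⟨⟨q, m⟩, rfl⟩ := hx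
    obtain ⟨⟨q', m'⟩, rfl⟩ := hy
    refine ⟨(((q.den : ℚ) * q'.den)⁻¹, (q.num * q'.den) • m + (q'.num * q.den) • m'), ?_⟩
    have hq : (q.den : ℚ) ≠ 0 := by exact_mod_cast q.den_nz
    have hq' : (q'.den : ℚ) ≠ 0 := by exact_mod_cast q'.den_nz
    simp only
    rw [TensorProduct.tmul_add, TensorProduct.tmul_smul, TensorProduct.tmul_smul,
      TensorProduct.smul_tmul', TensorProduct.smul_tmul']
    congr 2
    · rw [zsmul_eq_mul]
      push_cast
      rw [mul_inv]
      nth_rewrite 1 [← Rat.num_div_den q]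
      field_simp
    · rw [zsmul_eq_mul]
      push_cast
      rw [mul_inv]
      nth_rewrite 1 [← Rat.num_div_den q']
      field_simp

/-- a chosen representative. -/
noncomputable def rep (v : ℚ ⊗[ℤ] M) : ℚ × M := (exists_rep v).choose

lemma rep_spec (v : ℚ ⊗[ℤ] M) : (rep v).1 ⊗ₜ[ℤ] (rep v).2 = v := (exists_rep v).choose_spec.symm

variable {Q : Type v} [AddCommGroup Q] [Module ℚ Q]

/-- extension of an additive map to a rational vector space. -/
noncomputable def ext1 (h : M →+ Q) : ℚ ⊗[ℤ] M →ₗ[ℚ] Q :=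
  TensorProduct.AlgebraTensorModule.lift
    { toFun := fun q => q • h.toIntLinearMap
      map_add' := fun a b => add_smul _ _ _
      map_smul' := fun a b => by
        simp only [smul_eq_mul, RingHom.id_apply, mul_smul] }

lemma ext1_tmul (h : M →+ Q) (q : ℚ) (m : M) : ext1 h (q ⊗ₜ m) = q • h m := rfl

/-- the value on representatives. -/
def val {n : ℕ} (f : M [⋀^Fin n]→ₗ[ℤ] Q) (g : Fin n → ℚ × M) : Q :=
  (∏ i, (g i).1) • f (fun i => (g i).2)

lemma val_update {n : ℕ} [DecidableEq (Fin n)] (f : M [⋀^Fin n]→ₗ[ℤ] Q) (g : Fin n → ℚ × M)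
    (i : Fin n) (r : ℚ × M) : val f (Function.update g i r) =
      (∏ k ∈ Finset.univ \ {i}, (g k).1) •
          ext1 (AddMonoidHom.mk' (fun m => f (Function.update (fun k => (g k).2) i m))
            (fun a b => f.map_update_add _ i a b)) (r.1 ⊗ₜ r.2) := by
  rw [ext1_tmul, smul_smul, val]
  have h1 : (fun k => (Function.update g i r k).2) =
      Function.update (fun k => (g k).2) i r.2 := by
    funext k
    by_cases hk : k = i
    · subst hk; simp
    · simp [Function.update_of_ne hk]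
  have h2 : (∏ k, (Function.update g i r k).1) =
      (∏ k ∈ Finset.univ \ {i}, (g k).1) * r.1 := by
    have h3 : (fun k => (Function.update g i r k).1) =
        Function.update (fun k => (g k).1) i r.1 := by
      funext k
      by_cases hk : k = i
      · subst hk; simp
      · simp [Function.update_of_ne hk]
    rw [h3, Finset.prod_update_of_mem (Finset.mem_univ i), mul_comm]
  rw [h1, h2]
  rfl

lemma val_congr {n : ℕ} (f : M [⋀^Fin n]→ₗ[ℤ] Q) (g g' : Fin n → ℚ × M)
    (h : ∀ i, (g i).1 ⊗ₜ[ℤ] (g i).2 = (g' i).1 ⊗ₜ[ℤ] (g' i).2) : val f g = val f g' := by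
  classical
  have key : ∀ s : Finset (Fin n), val f (s.piecewise g g') = val f g' := by
    intro s
    induction s using Finset.induction_on with
    | empty => simp
    | insert i s hi ih =>
      have h1 : (insert i s).piecewise g g' = Function.update (s.piecewise g g') i (g i) := by
        rw [Finset.piecewise_insert]
      have h2 : s.piecewise g g' = Function.update (s.piecewise g g') i (g' i) := by
        rw [eq_comm, Function.update_eq_self_iff, Finset.piecewise_eq_of_notMem _ _ _ hi]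
      rw [h1, val_update, h i, ← val_update, ← h2, ih]
  have := key Finset.univ
  simpa using this

open Classical in
/-- extension of a `ℤ`-alternating map with values in a `ℚ`-vector space. -/
noncomputable def extA {n : ℕ} (f : M [⋀^Fin n]→ₗ[ℤ] Q) :
    (ℚ ⊗[ℤ] M) [⋀^Fin n]→ₗ[ℚ] Q where
  toFun v := val f (fun i => rep (v i))
  map_update_add' := by
    intro inst v i x y
    have key : ∀ z, val f (fun k => rep (Function.update v i z k)) =
        (∏ k ∈ Finset.univ \ {i}, (rep (v k)).1) •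
          ext1 (AddMonoidHom.mk' (fun m => f (Function.update (fun k => (rep (v k)).2) i m))
            (fun a b => f.map_update_add _ i a b)) z := by
      intro z
      have h1 : (fun k => rep (Function.update v i z k)) =
          Function.update (fun k => rep (v k)) i (rep z) := by
        funext k
        by_cases hk : k = i
        · subst hk; simp
        · simp [Function.update_of_ne hk]
      rw [h1, val_update, rep_spec]
    rw [key, key, key, map_add, smul_add]
  map_update_smul' := by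
    intro inst v i c x
    have key : ∀ z, val f (fun k => rep (Function.update v i z k)) =
        (∏ k ∈ Finset.univ \ {i}, (rep (v k)).1) •
          ext1 (AddMonoidHom.mk' (fun m => f (Function.update (fun k => (rep (v k)).2) i m))
            (fun a b => f.map_update_add _ i a b)) z := by
      intro z
      have h1 : (fun k => rep (Function.update v i z k)) =
          Function.update (fun k => rep (v k)) i (rep z) := by
        funext k
        by_cases hk : k = i
        · subst hk; simp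
        · simp [Function.update_of_ne hk]
      rw [h1, val_update, rep_spec]
    rw [key, key, map_smul, smul_comm]
  map_eq_zero_of_eq' := by
    intro v i j h hij
    have h1 : f (fun i => (rep (v i)).2) = 0 :=
      f.map_eq_zero_of_eq _ (i := i) (j := j) (by simp only [h]) hij
    change _ • f (fun i => (rep (v i)).2) = 0
    rw [h1, smul_zero]

lemma extA_one {n : ℕ} (f : M [⋀^Fin n]→ₗ[ℤ] Q) (m : Fin n → M) :
    extA f (fun i => (1 : ℚ) ⊗ₜ[ℤ] m i) = f m := by
  change val f (fun i => rep ((1 : ℚ) ⊗ₜ[ℤ] m i)) = f m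
  rw [val_congr f _ (fun i => ((1 : ℚ), m i)) (fun i => by rw [rep_spec])]
  simp [val]

/-- the restriction of `ιMulti` along `m ↦ 1 ⊗ m`. -/
noncomputable def resι (M : Type u) [AddCommGroup M] (n : ℕ) :
    M [⋀^Fin n]→ₗ[ℤ] Lam (ℚ ⊗[ℤ] M) n where
  toFun m := Abs.iota n (fun i => (1 : ℚ) ⊗ₜ[ℤ] m i)
  map_update_add' := by
    intro inst m i x y
    have h : ∀ z, (fun k => (1 : ℚ) ⊗ₜ[ℤ] Function.update m i z k) =
        Function.update (fun k => (1 : ℚ) ⊗ₜ[ℤ] m k) i ((1 : ℚ) ⊗ₜ[ℤ] z) := by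
      intro z
      funext k
      by_cases hk : k = i
      · subst hk; simp
      · simp [Function.update_of_ne hk]
    rw [h, h, h, TensorProduct.tmul_add]
    exact (exteriorPower.ιMulti ℚ n (M := ℚ ⊗[ℤ] M)).map_update_add _ i _ _
  map_update_smul' := by
    intro inst m i c x
    have h : ∀ z, (fun k => (1 : ℚ) ⊗ₜ[ℤ] Function.update m i z k) =
        Function.update (fun k => (1 : ℚ) ⊗ₜ[ℤ] m k) i ((1 : ℚ) ⊗ₜ[ℤ] z) := by
      intro z
      funext k
      by_cases hk : k = i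
      · subst hk; simp
      · simp [Function.update_of_ne hk]
    have h2 : (1 : ℚ) ⊗ₜ[ℤ] (c • x) = (c : ℚ) • ((1 : ℚ) ⊗ₜ[ℤ] x) := by
      rw [TensorProduct.tmul_smul, ← Int.cast_smul_eq_zsmul ℚ]
    rw [h, h, h2, ← Int.cast_smul_eq_zsmul ℚ]
    exact (exteriorPower.ιMulti ℚ n (M := ℚ ⊗[ℤ] M)).map_update_smul _ i _ _
  map_eq_zero_of_eq' := by
    intro v i j h hij
    exact (exteriorPower.ιMulti ℚ n (M := ℚ ⊗[ℤ] M)).map_eq_zero_of_eq _ (i := i) (j := j)
      (by simp only [h]) hij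

lemma resι_apply (n : ℕ) (m : Fin n → M) :
    resι M n m = Abs.iota n (fun i => (1 : ℚ) ⊗ₜ[ℤ] m i) := rfl

/-- `ℚ ⊗ Λ^n_ℤ M → Λ^n_ℚ (ℚ ⊗ M)`. -/
noncomputable def toLam (M : Type u) [AddCommGroup M] (n : ℕ) :
    ℚ ⊗[ℤ] (⋀[ℤ]^n M) →ₗ[ℚ] Lam (ℚ ⊗[ℤ] M) n :=
  ext1 (exteriorPower.alternatingMapLinearEquiv (resι M n)).toAddMonoidHom

lemma toLam_one (n : ℕ) (m : Fin n → M) :
    toLam M n ((1 : ℚ) ⊗ₜ[ℤ] exteriorPower.ιMulti ℤ n m) =
      Abs.iota n (fun i => (1 : ℚ) ⊗ₜ[ℤ] m i) := by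
  rw [toLam, ext1_tmul, one_smul]
  exact exteriorPower.alternatingMapLinearEquiv_apply_ιMulti (resι M n) m

/-- `Λ^n_ℚ (ℚ ⊗ M) → ℚ ⊗ Λ^n_ℤ M`. -/
noncomputable def ofLam (M : Type u) [AddCommGroup M] (n : ℕ) :
    Lam (ℚ ⊗[ℤ] M) n →ₗ[ℚ] ℚ ⊗[ℤ] (⋀[ℤ]^n M) :=
  exteriorPower.alternatingMapLinearEquiv (extA
    ((TensorProduct.mk ℤ ℚ (⋀[ℤ]^n M) 1).compAlternatingMap (exteriorPower.ιMulti ℤ n)))

lemma ofLam_iota (n : ℕ) (m : Fin n → M) :
    ofLam M n (Abs.iota n (fun i => (1 : ℚ) ⊗ₜ[ℤ] m i)) =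
      (1 : ℚ) ⊗ₜ[ℤ] exteriorPower.ιMulti ℤ n m := by
  have h := exteriorPower.alternatingMapLinearEquiv_apply_ιMulti (extA
    ((TensorProduct.mk ℤ ℚ (⋀[ℤ]^n M) 1).compAlternatingMap (exteriorPower.ιMulti ℤ n)))
    (fun i => (1 : ℚ) ⊗ₜ[ℤ] m i)
  rw [extA_one] at h
  exact h

lemma tensor_ext {N : Type*} {P : Type*} [AddCommGroup N] [AddCommGroup P] [Module ℚ P]
    {f g : ℚ ⊗[ℤ] N →ₗ[ℚ] P} (h : ∀ n, f (1 ⊗ₜ n) = g (1 ⊗ₜ n)) : f = g := by
  apply LinearMap.ext
  intro z
  induction z using TensorProduct.induction_on with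
  | zero => rw [map_zero, map_zero]
  | tmul q n =>
    have : q ⊗ₜ[ℤ] n = q • ((1 : ℚ) ⊗ₜ[ℤ] n) := by
      rw [TensorProduct.smul_tmul', smul_eq_mul, mul_one]
    rw [this, map_smul, map_smul, h]
  | add a b ha hb => rw [map_add, map_add, ha, hb]

lemma Lam_ext1 {n : ℕ} {N : Type*} [AddCommGroup N] [Module ℚ N]
    {f g : Lam (ℚ ⊗[ℤ] M) n →ₗ[ℚ] N}
    (h : ∀ m : Fin n → M, f (Abs.iota n (fun i => (1 : ℚ) ⊗ₜ[ℤ] m i)) =
      g (Abs.iota n (fun i => (1 : ℚ) ⊗ₜ[ℤ] m i))) : f = g := by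
  apply exteriorPower.linearMap_ext
  ext1 v
  have hv : v = fun i => (rep (v i)).1 • ((1 : ℚ) ⊗ₜ[ℤ] (rep (v i)).2) := by
    funext i
    rw [TensorProduct.smul_tmul', smul_eq_mul, mul_one, rep_spec]
  have h1 := fun f : Lam (ℚ ⊗[ℤ] M) n →ₗ[ℚ] N =>
    (LinearMap.compAlternatingMap (R := ℚ) (M := ℚ ⊗[ℤ] M) f
      (exteriorPower.ιMulti ℚ n)).toMultilinearMap.map_smul_univ
      (fun i => (rep (v i)).1) (fun i => (1 : ℚ) ⊗ₜ[ℤ] (rep (v i)).2)
  rw [hv]
  refine (h1 f).trans (Eq.trans ?_ (h1 g).symm)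
  congr 1
  exact h _

lemma ofLam_toLam (n : ℕ) (w : ⋀[ℤ]^n M) :
    ofLam M n (toLam M n ((1 : ℚ) ⊗ₜ[ℤ] w)) = (1 : ℚ) ⊗ₜ[ℤ] w := by
  have hw : w ∈ Submodule.span ℤ (Set.range (exteriorPower.ιMulti ℤ n (M := M))) := by
    rw [exteriorPower.ιMulti_span]
    exact Submodule.mem_top
  induction hw using Submodule.span_induction with
  | mem x hx =>
    obtain ⟨m, rfl⟩ := hx
    rw [toLam_one, ofLam_iota]
  | zero => rw [TensorProduct.tmul_zero, map_zero, map_zero]
  | add x y _ _ hx hy => rw [TensorProduct.tmul_add, map_add, map_add, hx, hy]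
  | smul c x _ hx =>
    rw [TensorProduct.tmul_smul, map_zsmul, map_zsmul, hx]

/-- base change of exterior powers. -/
noncomputable def eLam (M : Type u) [AddCommGroup M] (n : ℕ) :
    ℚ ⊗[ℤ] (⋀[ℤ]^n M) ≃ₗ[ℚ] Lam (ℚ ⊗[ℤ] M) n :=
  LinearEquiv.ofLinearMap (toLam M n) (ofLam M n)
    (by
      apply Lam_ext1
      intro m
      rw [LinearMap.comp_apply, ofLam_iota, toLam_one, LinearMap.id_apply])
    (by
      apply tensor_ext
      intro w
      exact ofLam_toLam n w)

lemma eLam_one (n : ℕ) (m : Fin n → M) :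
    eLam M n ((1 : ℚ) ⊗ₜ[ℤ] exteriorPower.ιMulti ℤ n m) =
      Abs.iota n (fun i => (1 : ℚ) ⊗ₜ[ℤ] m i) := toLam_one n m

end ext

end Pool.Agent.Helper91.Gon.BC
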