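import Pool.Agent.Helper91.Gon.Defs

/-!
Basic formulas for the polylogarithmic groups: values of the differentials on generators,
`d² = 0`.
-/

namespace Pool.Agent.Helper91.Gon

open scoped TensorProduct
open TensorProduct

universe u

section basic

variable {F : Type u} [Field F]

lemma lg_zero : lg (0 : F) = 0 := by simp [lg]

lemma lg_of_ne {x : F} (h : x ≠ 0) : lg x = 1 ⊗ₜ[ℤ] Additive.ofMul (Units.mk0 x h) := by
  simp [lg, h]

lemma lg_unit (x : Fˣ) : lg (x : F) = 1 ⊗ₜ[ℤ] Additive.ofMul x := by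
  rw [lg_of_ne x.ne_zero]
  congr 2
  ext
  rfl

lemma lg_one : lg (1 : F) = 0 := by
  have := lg_unit (1 : Fˣ)
  simpa using this

lemma lg_mul {x y : F} (hx : x ≠ 0) (hy : y ≠ 0) : lg (x * y) = lg x + lg y := by
  rw [lg_of_ne hx, lg_of_ne hy, lg_of_ne (mul_ne_zero hx hy), ← TensorProduct.tmul_add,
    ← ofMul_mul]
  congr 2
  ext
  rfl

open Classical in
lemma delta2_gen (x : F) : delta2 F (gen (x : OnePoint F)) =
    ww (VF F) (lg (1 - x)) (lg x) := by
  have h : delta2 F (gen (x : OnePoint F)) =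
      (if x = 0 ∨ x = 1 then 0 else ww (VF F) (lg (1 - x)) (lg x)) := by
    simp only [delta2, gen, Finsupp.lift_apply]
    rw [Finsupp.sum_single_index (by simp), one_smul]
  rw [h]
  split_ifs with h1
  · rcases h1 with h1 | h1
    · rw [h1, lg_zero, map_zero]
    · rw [h1, sub_self, lg_zero, map_zero, LinearMap.zero_apply]
  · rfl

lemma delta2_infty : delta2 F (gen (OnePoint.infty : OnePoint F)) = 0 := by
  simp only [delta2, gen, Finsupp.lift_apply]
  rw [Finsupp.sum_single_index (by simp), one_smul]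

open Classical in
lemma deltaOf_gen (R' : Submodule ℚ (QP F)) (x : F) : deltaOf R' (gen (x : OnePoint F)) =
    R'.mkQ (gen (x : OnePoint F)) ⊗ₜ[ℚ] lg x := by
  have h : deltaOf R' (gen (x : OnePoint F)) =
      (if x = 0 ∨ x = 1 then 0 else R'.mkQ (gen (x : OnePoint F)) ⊗ₜ[ℚ] lg x) := by
    simp only [deltaOf, gen, Finsupp.lift_apply]
    rw [Finsupp.sum_single_index (by simp), one_smul]
  rw [h]
  split_ifs with h1
  · rcases h1 with h1 | h1
    · rw [h1, lg_zero, TensorProduct.tmul_zero]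
    · rw [h1, lg_one, TensorProduct.tmul_zero]
  · rfl

lemma deltaOf_infty (R' : Submodule ℚ (QP F)) :
    deltaOf R' (gen (OnePoint.infty : OnePoint F)) = 0 := by
  simp only [deltaOf, gen, Finsupp.lift_apply]
  rw [Finsupp.sum_single_index (by simp), one_smul]

lemma deltaS_gen (n : ℕ) (x : F) : deltaS n F (gen (x : OnePoint F)) =
    cl n (x : OnePoint F) ⊗ₜ[ℚ] lg x := deltaOf_gen _ x

lemma deltaS_infty (n : ℕ) :
    deltaS n F (gen (OnePoint.infty : OnePoint F)) = 0 := deltaOf_infty _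

lemma gen_zero_mem (n : ℕ) : gen ((0 : F) : OnePoint F) ∈ R (n + 1) F := by
  cases n with
  | zero => exact Submodule.subset_span (Or.inl (Or.inl rfl))
  | succ n =>
    rw [R_add_two]
    exact Submodule.subset_span (Or.inl (Or.inl rfl))

lemma gen_infty_mem (n : ℕ) : gen (OnePoint.infty : OnePoint F) ∈ R (n + 1) F := by
  cases n with
  | zero => exact Submodule.subset_span (Or.inl (Or.inr rfl))
  | succ n =>
    rw [R_add_two]
    exact Submodule.subset_span (Or.inl (Or.inr rfl))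

lemma cl_zero (n : ℕ) : cl (n + 1) ((0 : F) : OnePoint F) = 0 := by
  rw [cl, Submodule.mkQ_apply, Submodule.Quotient.mk_eq_zero]
  exact gen_zero_mem n

lemma cl_infty (n : ℕ) : cl (n + 1) (OnePoint.infty : OnePoint F) = 0 := by
  rw [cl, Submodule.mkQ_apply, Submodule.Quotient.mk_eq_zero]
  exact gen_infty_mem n

lemma QP_hom_ext {M : Type*} [AddCommGroup M] [Module ℚ M] {f g : QP F →ₗ[ℚ] M}
    (h : ∀ x : F, f (gen (x : OnePoint F)) = g (gen (x : OnePoint F)))
    (h' : f (gen OnePoint.infty) = g (gen OnePoint.infty)) : f = g := by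
  apply Finsupp.lhom_ext'
  intro x
  apply LinearMap.ext_ring
  cases x using OnePoint.rec with
  | infty => exact h'
  | coe x => exact h x

lemma B_hom_ext {n : ℕ} {M : Type*} [AddCommGroup M] [Module ℚ M] {f g : B (n + 1) F →ₗ[ℚ] M}
    (h : ∀ x : F, f (cl (n + 1) (x : OnePoint F)) = g (cl (n + 1) (x : OnePoint F))) : f = g := by
  apply Submodule.linearMap_qext
  apply QP_hom_ext
  · intro x
    exact h x
  · change f (cl (n + 1) OnePoint.infty) = g (cl (n + 1) OnePoint.infty)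
    rw [cl_infty, map_zero, map_zero]

lemma BL_hom_ext {n : ℕ} {L M : Type*} [AddCommGroup L] [Module ℚ L] [AddCommGroup M] [Module ℚ M]
    {f g : B (n + 1) F ⊗[ℚ] L →ₗ[ℚ] M}
    (h : ∀ (x : F) (ω : L), f (cl (n + 1) (x : OnePoint F) ⊗ₜ ω) =
      g (cl (n + 1) (x : OnePoint F) ⊗ₜ ω)) : f = g := by
  apply TensorProduct.ext
  apply B_hom_ext
  intro x
  ext ω
  exact h x ω

/-- The descended map is either the honest one or zero. -/
lemma descend_mk {M N : Type*} [AddCommGroup M] [Module ℚ M] [AddCommGroup N] [Module ℚ N]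
    {R' : Submodule ℚ M} {δ : M →ₗ[ℚ] N} (h : R' ≤ LinearMap.ker δ) (x : M) :
    descend R' δ (R'.mkQ x) = δ x := by
  rw [descend, dif_pos h]
  simp

lemma descend_neg {M N : Type*} [AddCommGroup M] [Module ℚ M] [AddCommGroup N] [Module ℚ N]
    {R' : Submodule ℚ M} {δ : M →ₗ[ℚ] N} (h : ¬ R' ≤ LinearMap.ker δ) :
    descend R' δ = 0 := by
  rw [descend, dif_neg h]

lemma dB2_cl (h : R 2 F ≤ A 2 F) (x : F) : dB2 F (cl 2 (x : OnePoint F)) =
    ww (VF F) (lg (1 - x)) (lg x) := by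
  rw [dB2, cl, descend_mk h, delta2_gen]

lemma dB_cl (n : ℕ) (h : R (n + 3) F ≤ A (n + 3) F) (x : F) :
    dB n F (cl (n + 3) (x : OnePoint F)) = cl (n + 2) (x : OnePoint F) ⊗ₜ lg x := by
  rw [dB, cl, descend_mk h, deltaS_gen]

lemma diff2_tmul (j : ℕ) (z : B 2 F) (ω : Lam (VF F) j) :
    diff2 j F (z ⊗ₜ ω) = wdg2 (VF F) j (dB2 F z) ω := by
  simp [diff2]

lemma diff2_cl (j : ℕ) (h : R 2 F ≤ A 2 F) (x : F) (ω : Lam (VF F) j) :
    diff2 j F (cl 2 (x : OnePoint F) ⊗ₜ ω) =
      wdg2 (VF F) j (ww (VF F) (lg (1 - x)) (lg x)) ω := by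
  rw [diff2_tmul, dB2_cl h]

lemma diffS_cl (p j : ℕ) (h : R (p + 3) F ≤ A (p + 3) F) (x : F) (ω : Lam (VF F) j) :
    diffS p j F (cl (p + 3) (x : OnePoint F) ⊗ₜ ω) =
      cl (p + 2) (x : OnePoint F) ⊗ₜ wdg (VF F) j (lg x) ω := by
  simp only [diffS, LinearMap.comp_apply, LinearMap.rTensor_tmul]
  rw [dB_cl p h, LinearEquiv.coe_coe, TensorProduct.assoc_tmul, LinearMap.lTensor_tmul,
    TensorProduct.lift.tmul]

/-- `d² = 0`, for every field. -/
lemma diffS_diffS (p j : ℕ) : diffS p (j + 1) F ∘ₗ diffS (p + 1) j F = 0 := by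
  by_cases h1 : R (p + 4) F ≤ A (p + 4) F
  · by_cases h2 : R (p + 3) F ≤ A (p + 3) F
    · apply BL_hom_ext
      intro x ω
      rw [LinearMap.comp_apply, diffS_cl (p + 1) j h1]
      rw [diffS_cl p (j + 1) h2, wdg_wdg_same]
      simp
    · have h : dB p F = 0 := descend_neg h2
      simp [diffS, h]
  · have h : dB (p + 1) F = 0 := descend_neg h1
    rw [diffS, diffS, h]
    simp

/-- `d² = 0`, for every field. -/
lemma diff2_diffS (j : ℕ) : diff2 (j + 1) F ∘ₗ diffS 0 j F = 0 := by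
  by_cases h1 : R 3 F ≤ A 3 F
  · by_cases h2 : R 2 F ≤ A 2 F
    · apply BL_hom_ext
      intro x ω
      rw [LinearMap.comp_apply, diffS_cl 0 j h1]
      rw [diff2_cl (j + 1) h2, wdg2_ww, wdg_wdg_same]
      simp
    · have h : dB2 F = 0 := descend_neg h2
      simp [diff2, h]
  · have h : dB 0 F = 0 := descend_neg h1
    rw [diffS, h]
    simp

end basic

end Pool.Agent.Helper91.Gon
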