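import Pool.Agent.Helper91.Gon.Double

/-!
# Goncharov's polylogarithmic groups and complexes with rational coefficients

Everything is defined with `ℚ`-coefficients from the start.  Since `ℚ` is flat over `ℤ` this is the
theory of the problem file tensored with `ℚ`: `VF F = F^* ⊗ ℚ`, `QP F = ℚ[P^1(F)]`,
`R n F = R_n(F) ⊗ ℚ`, `B n F = B_n(F) ⊗ ℚ`, `Gam F n = Γ(F,n) ⊗ ℚ`.
-/

namespace Pool.Agent.Helper91.Gon

open scoped TensorProduct
open TensorProduct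

universe u

section defs

/-- `F^* ⊗ ℚ`, written additively. -/
abbrev VF (F : Type u) [Field F] : Type u := ℚ ⊗[ℤ] Additive Fˣ

/-- `ℚ[P^1(F)]`; `P^1(F) = F ∪ {∞}` is `OnePoint F`. -/
abbrev QP (F : Type u) : Type u := OnePoint F →₀ ℚ

/-- the generator `{x}`, `x ∈ P^1(F)`. -/
noncomputable def gen {F : Type u} (x : OnePoint F) : QP F := Finsupp.single x 1

open Classical in
/-- the class of `x ∈ F^*` in `F^* ⊗ ℚ` (and `0` for `x = 0`). -/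
noncomputable def lg {F : Type u} [Field F] (x : F) : VF F :=
  if h : x = 0 then 0 else 1 ⊗ₜ[ℤ] Additive.ofMul (Units.mk0 x h)

open Classical in
/-- `δ_2 : {x} ↦ (1 - x) ∧ x`, and `{0}, {1}, {∞} ↦ 0`. -/
noncomputable def delta2 (F : Type u) [Field F] : QP F →ₗ[ℚ] Lam (VF F) 2 :=
  Finsupp.lift (Lam (VF F) 2) ℚ (OnePoint F) fun x =>
    match x with
    | none => 0
    | some x => if x = 0 ∨ x = 1 then 0 else ww (VF F) (lg (1 - x)) (lg x)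

open Classical in
/-- for a subspace `R'` of `ℚ[P^1(F)]` the map `{x} ↦ [x] ⊗ x` to `(ℚ[P^1(F)] / R') ⊗ F^*`,
`{0}, {1}, {∞} ↦ 0`. -/
noncomputable def deltaOf {F : Type u} [Field F] (R' : Submodule ℚ (QP F)) :
    QP F →ₗ[ℚ] (QP F ⧸ R') ⊗[ℚ] VF F :=
  Finsupp.lift ((QP F ⧸ R') ⊗[ℚ] VF F) ℚ (OnePoint F) fun x =>
    match x with
    | none => 0
    | some x => if x = 0 ∨ x = 1 then 0 else R'.mkQ (gen (x : OnePoint F)) ⊗ₜ[ℚ] lg x

open Classical in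
/-- the value `f(c) ∈ P^1(F)` of `f ∈ P^1(F(t))` at `t = c ∈ F`. -/
noncomputable def spec {F : Type u} [Field F] (c : F) : OnePoint (RatFunc F) → OnePoint F
  | none => OnePoint.infty
  | some f => if f.denom.eval c = 0 then OnePoint.infty
      else ((f.num.eval c / f.denom.eval c : F) : OnePoint F)

/-- specialisation `α(t) ↦ α(c)`. -/
noncomputable def specQ {F : Type u} [Field F] (c : F) : QP (RatFunc F) →ₗ[ℚ] QP F :=
  Finsupp.lmapDomain ℚ ℚ (spec c)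

/-- The relations generated by `{0}`, `{∞}` and all `α(0) - α(1)` with `α(t)` in a given
subspace of `ℚ[P^1(F(t))]`. -/
noncomputable def relOf (F : Type u) [Field F] (A : Submodule ℚ (QP (RatFunc F))) :
    Submodule ℚ (QP F) :=
  Submodule.span ℚ ({gen ((0 : F) : OnePoint F), gen OnePoint.infty} ∪
    {z | ∃ α ∈ A, z = specQ 0 α - specQ 1 α})

/-- The relations `R_1`: `{x} + {y} - {xy}` (`x, y ∈ F^*`), `{0}`, `{∞}`. -/
noncomputable def rel1 (F : Type u) [Field F] : Submodule ℚ (QP F) :=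
  Submodule.span ℚ ({gen ((0 : F) : OnePoint F), gen OnePoint.infty} ∪
    {z | ∃ x y : Fˣ, z = gen (((x : F)) : OnePoint F) + gen (((y : F)) : OnePoint F) -
      gen ((((x * y : Fˣ) : F)) : OnePoint F)})

/-- `R_n(F) ⊗ ℚ`.  For `n ≥ 2` it is generated by `{0}`, `{∞}` and all `α(0) - α(1)`,
`α(t) ∈ A_n(F(t)) = ker δ_n`. -/
noncomputable def R : ℕ → ∀ (F : Type u) [Field F], Submodule ℚ (QP F)
  | 0 => fun _ _ => ⊤
  | 1 => fun F _ => rel1 F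
  | 2 => fun F _ => relOf F (LinearMap.ker (delta2 (RatFunc F)))
  | (n + 3) => fun F _ => relOf F (LinearMap.ker (deltaOf (R (n + 2) (RatFunc F))))

/-- `B_n(F) ⊗ ℚ`. -/
abbrev B (n : ℕ) (F : Type u) [Field F] : Type u := QP F ⧸ R n F

/-- `{x}_n ∈ B_n(F)`. -/
noncomputable def cl (n : ℕ) {F : Type u} [Field F] (x : OnePoint F) : B n F :=
  (R n F).mkQ (gen x)

/-- `δ_{n+1} : ℚ[P^1(F)] → B_n(F) ⊗ F^*` (used for `n ≥ 2`). -/
noncomputable def deltaS (n : ℕ) (F : Type u) [Field F] : QP F →ₗ[ℚ] B n F ⊗[ℚ] VF F :=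
  deltaOf (R n F)

/-- `A_n(F) ⊗ ℚ = ker δ_n`. -/
noncomputable def A : ℕ → ∀ (F : Type u) [Field F], Submodule ℚ (QP F)
  | 0 => fun _ _ => ⊤
  | 1 => fun _ _ => ⊤
  | 2 => fun F _ => LinearMap.ker (delta2 F)
  | (n + 3) => fun F _ => LinearMap.ker (deltaS (n + 2) F)

lemma R_add_two (n : ℕ) (F : Type u) [Field F] :
    R (n + 2) F = relOf F (A (n + 2) (RatFunc F)) := by
  cases n <;> rfl

open Classical in
/-- The map on `M / R'` induced by `δ : M → N` when `δ` kills `R'` (and `0` otherwise). -/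
noncomputable def descend {M N : Type*} [AddCommGroup M] [Module ℚ M] [AddCommGroup N] [Module ℚ N]
    (R' : Submodule ℚ M) (δ : M →ₗ[ℚ] N) : (M ⧸ R') →ₗ[ℚ] N :=
  if h : R' ≤ LinearMap.ker δ then R'.liftQ δ h else 0

/-- `δ_2 : B_2(F) → Λ² F^*`. -/
noncomputable def dB2 (F : Type u) [Field F] : B 2 F →ₗ[ℚ] Lam (VF F) 2 :=
  descend (R 2 F) (delta2 F)

/-- `δ_{n+3} : B_{n+3}(F) → B_{n+2}(F) ⊗ F^*`. -/
noncomputable def dB (n : ℕ) (F : Type u) [Field F] : B (n + 3) F →ₗ[ℚ] B (n + 2) F ⊗[ℚ] VF F :=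
  descend (R (n + 3) F) (deltaS (n + 2) F)

/-- `B_2(F) ⊗ Λ^j F^* → Λ^{j+2} F^*`, `x ⊗ ω ↦ δ_2(x) ∧ ω`. -/
noncomputable def diff2 (j : ℕ) (F : Type u) [Field F] :
    B 2 F ⊗[ℚ] Lam (VF F) j →ₗ[ℚ] Lam (VF F) (j + 2) :=
  TensorProduct.lift (wdg2 (VF F) j) ∘ₗ (dB2 F).rTensor (Lam (VF F) j)

/-- `B_{p+3}(F) ⊗ Λ^j F^* → B_{p+2}(F) ⊗ Λ^{j+1} F^*`,
`{x} ⊗ ω ↦ {x} ⊗ (x ∧ ω)`. -/
noncomputable def diffS (p j : ℕ) (F : Type u) [Field F] :
    B (p + 3) F ⊗[ℚ] Lam (VF F) j →ₗ[ℚ] B (p + 2) F ⊗[ℚ] Lam (VF F) (j + 1) :=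
  (TensorProduct.lift (wdg (VF F) j)).lTensor (B (p + 2) F) ∘ₗ
    (TensorProduct.assoc ℚ (B (p + 2) F) (VF F) (Lam (VF F) j)).toLinearMap ∘ₗ
      (dB p F).rTensor (Lam (VF F) j)

end defs

end Pool.Agent.Helper91.Gon
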