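import Pool.Agent.Helper91.Gon.Koszul

/-!
The double Koszul complex `S ⊗ Λ^a ⊗ Λ^b` (`a ≤ 2`) and the exactness statement used for the
polylogarithmic complexes.
-/

namespace Pool.Agent.Helper91.Gon

open scoped TensorProduct
open TensorProduct

section alt2

variable {K : Type*} [CommRing K] {V : Type*} [AddCommGroup V] [Module K V]
  {N : Type*} [AddCommGroup N] [Module K N]

/-- The alternating map attached to an alternating bilinear map. -/
def alt2 (f : V →ₗ[K] V →ₗ[K] N) (hf : ∀ v, f v v = 0) : V [⋀^Fin 2]→ₗ[K] N where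
  toFun v := f (v 0) (v 1)
  map_update_add' := by
    intro _ m i x y
    fin_cases i <;> simp [Function.update]
  map_update_smul' := by
    intro _ m i c x
    fin_cases i <;> simp [Function.update]
  map_eq_zero_of_eq' := by
    intro v i j h hij
    have hv : v 0 = v 1 := by
      fin_cases i <;> fin_cases j <;> simp_all
    change f (v 0) (v 1) = 0
    rw [hv, hf]

/-- The linear map on `Λ²` attached to an alternating bilinear map. -/
noncomputable def lift2 (f : V →ₗ[K] V →ₗ[K] N) (hf : ∀ v, f v v = 0) : ⋀[K]^2 V →ₗ[K] N :=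
  exteriorPower.alternatingMapLinearEquiv (alt2 f hf)

variable (K) in
/-- `v ∧ u` in `Λ²`. -/
noncomputable def w2 : V →ₗ[K] V →ₗ[K] ⋀[K]^2 V :=
  (wedge K V 1).compl₂ (exteriorPower.oneEquiv K V).symm.toLinearMap

lemma w2_apply (v u : V) : w2 K v u = exteriorPower.ιMulti K 2 ![v, u] := by
  have h : (exteriorPower.oneEquiv K V).symm u = exteriorPower.ιMulti K 1 ![u] := by
    rw [LinearEquiv.symm_apply_eq]
    simp
  simp only [w2, LinearMap.compl₂_apply, LinearEquiv.coe_coe]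
  rw [h, wedge_ιMulti]

@[simp] lemma lift2_w2 (f : V →ₗ[K] V →ₗ[K] N) (hf : ∀ v, f v v = 0) (v u : V) :
    lift2 f hf (w2 K v u) = f v u := by
  rw [w2_apply, lift2, exteriorPower.alternatingMapLinearEquiv_apply_ιMulti]
  rfl

lemma w2_self (v : V) : w2 K v v = 0 := by
  rw [w2_apply]
  exact (exteriorPower.ιMulti K 2 (M := V)).map_eq_zero_of_eq _ (i := 0) (j := 1)
      (by simp) (by simp)

lemma w2_swap (v u : V) : w2 K v u = - w2 K u v := by
  have h := w2_self (K := K) (v + u)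
  simp only [map_add, LinearMap.add_apply, w2_self, zero_add, add_zero] at h
  exact eq_neg_of_add_eq_zero_right h

/-- Two linear maps on `Λ²` agreeing on all `v ∧ u` are equal. -/
lemma lift2_ext {f g : ⋀[K]^2 V →ₗ[K] N} (h : ∀ v u, f (w2 K v u) = g (w2 K v u)) : f = g := by
  apply exteriorPower.linearMap_ext
  ext1 w
  have hw : w = ![w 0, w 1] := by
    funext i
    fin_cases i <;> rfl
  have h1 := h (w 0) (w 1)
  rw [w2_apply, ← hw] at h1
  exact h1

variable (K V) in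
/-- `(v ∧ u, ω) ↦ v ∧ u ∧ ω`, as a map on `Λ² ⊗ Λ^b`. -/
noncomputable def wedge2 (b : ℕ) : ⋀[K]^2 V →ₗ[K] ⋀[K]^b V →ₗ[K] ⋀[K]^(b + 2) V :=
  lift2
    (LinearMap.mk₂ K (fun v u => wedge K V (b + 1) v ∘ₗ wedge K V b u)
      (by intro v w u; rw [map_add, LinearMap.add_comp])
      (by intro c v u; rw [map_smul, LinearMap.smul_comp])
      (by intro v u w; rw [map_add, LinearMap.comp_add])
      (by intro c v u; rw [map_smul, LinearMap.comp_smul]))
    (by
      intro v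
      apply LinearMap.ext
      intro x
      simp [wedge_wedge_same])

@[simp] lemma wedge2_w2 (b : ℕ) (v u : V) (ω : ⋀[K]^b V) :
    wedge2 K V b (w2 K v u) ω = wedge K V (b + 1) v (wedge K V b u ω) := by
  rw [wedge2, lift2_w2]
  simp

end alt2

section Lam

/-- The `n`-th exterior power over `ℚ`. -/
def Lam (V : Type*) [AddCommGroup V] [Module ℚ V] (n : ℕ) : Type _ := ⋀[ℚ]^n V

variable {V : Type*} [AddCommGroup V] [Module ℚ V]

noncomputable instance (n : ℕ) : AddCommGroup (Lam V n) :=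
  inferInstanceAs (AddCommGroup (⋀[ℚ]^n V))

noncomputable instance (n : ℕ) : Module ℚ (Lam V n) :=
  inferInstanceAs (Module ℚ (⋀[ℚ]^n V))

variable (V) in
/-- `(v, ω) ↦ v ∧ ω`. -/
noncomputable def wdg (n : ℕ) : V →ₗ[ℚ] Lam V n →ₗ[ℚ] Lam V (n + 1) := wedge ℚ V n

variable (V) in
/-- comultiplication. -/
noncomputable def cml (n : ℕ) : Lam V (n + 1) →ₗ[ℚ] V ⊗[ℚ] Lam V n := comul ℚ V n

variable (V) in
/-- `v ∧ u` in `Λ²`. -/
noncomputable def ww : V →ₗ[ℚ] V →ₗ[ℚ] Lam V 2 := w2 ℚ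

variable (V) in
/-- `(v ∧ u, ω) ↦ v ∧ u ∧ ω`. -/
noncomputable def wdg2 (b : ℕ) : Lam V 2 →ₗ[ℚ] Lam V b →ₗ[ℚ] Lam V (b + 2) := wedge2 ℚ V b

lemma cml_wdg_succ (n : ℕ) (v : V) (ω : Lam V (n + 1)) :
    cml V (n + 1) (wdg V (n + 1) v ω) = v ⊗ₜ[ℚ] ω - (wdg V n v).lTensor V (cml V n ω) :=
  comul_wedge_succ n v ω

lemma cml_wdg_zero (v : V) (ω : Lam V 0) :
    cml V 0 (wdg V 0 v ω) = v ⊗ₜ[ℚ] ω := comul_wedge_zero v ω

lemma wdg_cml (n : ℕ) (ω : Lam V (n + 1)) :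
    TensorProduct.lift (wdg V n) (cml V n ω) = ((n : ℚ) + 1) • ω := by
  have h := wedge_comul (K := ℚ) (V := V) n ω
  have h2 : ((n : ℤ) + 1) • ω = ((n : ℚ) + 1) • ω := by
    rw [← Int.cast_smul_eq_zsmul ℚ]
    push_cast
    rfl
  rw [← h2]
  exact h

lemma wdg_wdg_same (n : ℕ) (v : V) (ω : Lam V n) :
    wdg V (n + 1) v (wdg V n v ω) = 0 := wedge_wedge_same n v ω

@[simp] lemma wdg2_ww (b : ℕ) (v u : V) (ω : Lam V b) :
    wdg2 V b (ww V v u) ω = wdg V (b + 1) v (wdg V b u ω) := wedge2_w2 b v u ω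

lemma ww_self (v : V) : ww V v v = 0 := w2_self v

lemma ww_swap (v u : V) : ww V v u = - ww V u v := w2_swap v u

/-- The linear map on `Λ²` attached to an alternating bilinear map. -/
noncomputable def liftL {N : Type*} [AddCommGroup N] [Module ℚ N] (f : V →ₗ[ℚ] V →ₗ[ℚ] N)
    (hf : ∀ v, f v v = 0) : Lam V 2 →ₗ[ℚ] N := lift2 f hf

@[simp] lemma liftL_ww {N : Type*} [AddCommGroup N] [Module ℚ N] (f : V →ₗ[ℚ] V →ₗ[ℚ] N)
    (hf : ∀ v, f v v = 0) (v u : V) : liftL f hf (ww V v u) = f v u := lift2_w2 f hf v u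

lemma liftL_ext {N : Type*} [AddCommGroup N] [Module ℚ N] {f g : Lam V 2 →ₗ[ℚ] N}
    (h : ∀ v u, f (ww V v u) = g (ww V v u)) : f = g := lift2_ext h

end Lam

section double

variable {V : Type*} [AddCommGroup V] [Module ℚ V] {S : Type*} [CommRing S] [Algebra ℚ S]

variable (V) in
/-- wedge into the second exterior factor, with coefficients `C`. -/
noncomputable def ext2 (C : Type*) [AddCommGroup C] [Module ℚ C] (b : ℕ) :
    V →ₗ[ℚ] (C ⊗[ℚ] Lam V b) →ₗ[ℚ] (C ⊗[ℚ] Lam V (b + 1)) where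
  toFun v := (wdg V b v).lTensor C
  map_add' := by
    intro v w
    rw [map_add, LinearMap.lTensor_add]
  map_smul' := by
    intro c v
    rw [map_smul, LinearMap.lTensor_smul, RingHom.id_apply]

@[simp] lemma ext2_tmul {C : Type*} [AddCommGroup C] [Module ℚ C] (b : ℕ) (v : V) (c : C)
    (ω : Lam V b) : ext2 V C b v (c ⊗ₜ ω) = c ⊗ₜ wdg V b v ω := rfl

variable (V) in
/-- comultiplication of the second exterior factor, with coefficients `C`. -/
noncomputable def com2 (C : Type*) [AddCommGroup C] [Module ℚ C] (b : ℕ) :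
    (C ⊗[ℚ] Lam V (b + 1)) →ₗ[ℚ] V ⊗[ℚ] (C ⊗[ℚ] Lam V b) :=
  (TensorProduct.leftComm ℚ C V (Lam V b)).toLinearMap ∘ₗ (cml V b).lTensor C

variable (V) in
/-- wedge into the first exterior factor: `Λ^0 → Λ^1`. -/
noncomputable def ext10 (b : ℕ) : V →ₗ[ℚ] Lam V b →ₗ[ℚ] (V ⊗[ℚ] Lam V b) :=
  TensorProduct.mk ℚ V (Lam V b)

variable (V) in
/-- wedge into the first exterior factor: `Λ^1 → Λ^2`. -/
noncomputable def ext11 (b : ℕ) :
    V →ₗ[ℚ] (V ⊗[ℚ] Lam V b) →ₗ[ℚ] (Lam V 2 ⊗[ℚ] Lam V b) where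
  toFun v := (ww V v).rTensor (Lam V b)
  map_add' := by
    intro v w
    rw [map_add, LinearMap.rTensor_add]
  map_smul' := by
    intro c v
    rw [map_smul, LinearMap.rTensor_smul, RingHom.id_apply]

@[simp] lemma ext11_tmul (b : ℕ) (v u : V) (ω : Lam V b) :
    ext11 V b v (u ⊗ₜ ω) = (ww V v u) ⊗ₜ ω := rfl

variable (V) in
/-- comultiplication of the first exterior factor: `Λ^2 → V ⊗ Λ^1`. -/
noncomputable def com11 (b : ℕ) :
    (Lam V 2 ⊗[ℚ] Lam V b) →ₗ[ℚ] V ⊗[ℚ] (V ⊗[ℚ] Lam V b) :=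
  (TensorProduct.assoc ℚ V V (Lam V b)).toLinearMap ∘ₗ
    (liftL (TensorProduct.mk ℚ V V - (TensorProduct.mk ℚ V V).flip)
      (by intro v; simp)).rTensor (Lam V b)

lemma com11_ext11 (b : ℕ) (v : V) (x : V ⊗[ℚ] Lam V b) :
    com11 V b (ext11 V b v x) = v ⊗ₜ x - (ext10 V b v).lTensor V x := by
  induction x using TensorProduct.induction_on with
  | zero => simp
  | tmul u ω =>
    simp [com11, ext10, TensorProduct.sub_tmul]
  | add x y hx hy =>
    rw [map_add, map_add, hx, hy, TensorProduct.tmul_add, map_add]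
    abel

lemma lift_ext10 (b : ℕ) (x : V ⊗[ℚ] Lam V b) :
    TensorProduct.lift (ext10 V b) x = x := by
  induction x using TensorProduct.induction_on with
  | zero => simp
  | tmul u ω => simp [ext10]
  | add x y hx hy => rw [map_add, hx, hy]

lemma lTensor_leftComm {C : Type*} [AddCommGroup C] [Module ℚ C] (b : ℕ) (v : V) (c : C)
    (y : V ⊗[ℚ] Lam V b) :
    (ext2 V C b v).lTensor V (TensorProduct.leftComm ℚ C V (Lam V b) (c ⊗ₜ y)) =
      TensorProduct.leftComm ℚ C V (Lam V (b + 1)) (c ⊗ₜ (wdg V b v).lTensor V y) := by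
  induction y using TensorProduct.induction_on with
  | zero => simp
  | tmul u ω => simp
  | add x y hx hy =>
    rw [TensorProduct.tmul_add, map_add, map_add, hx, hy, map_add, TensorProduct.tmul_add, map_add]

lemma com2_ext2_succ {C : Type*} [AddCommGroup C] [Module ℚ C] (b : ℕ) (v : V)
    (x : C ⊗[ℚ] Lam V (b + 1)) :
    com2 V C (b + 1) (ext2 V C (b + 1) v x) =
      v ⊗ₜ x - (ext2 V C b v).lTensor V (com2 V C b x) := by
  induction x using TensorProduct.induction_on with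
  | zero => simp
  | tmul c ω =>
    rw [ext2_tmul, com2, com2, LinearMap.comp_apply, LinearMap.comp_apply,
      LinearMap.lTensor_tmul, LinearMap.lTensor_tmul, cml_wdg_succ, LinearEquiv.coe_coe,
      LinearEquiv.coe_coe, lTensor_leftComm, TensorProduct.tmul_sub, map_sub,
      TensorProduct.leftComm_tmul]
  | add x y hx hy =>
    rw [map_add, map_add, hx, hy, TensorProduct.tmul_add, map_add, map_add]
    abel

lemma com2_ext2_zero {C : Type*} [AddCommGroup C] [Module ℚ C] (v : V)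
    (x : C ⊗[ℚ] Lam V 0) :
    com2 V C 0 (ext2 V C 0 v x) = v ⊗ₜ x := by
  induction x using TensorProduct.induction_on with
  | zero => simp
  | tmul c ω =>
    rw [ext2_tmul, com2, LinearMap.comp_apply, LinearMap.lTensor_tmul, cml_wdg_zero,
      LinearEquiv.coe_coe, TensorProduct.leftComm_tmul]
  | add x y hx hy =>
    rw [map_add, map_add, hx, hy, TensorProduct.tmul_add]

lemma lift_leftComm {C : Type*} [AddCommGroup C] [Module ℚ C] (b : ℕ) (c : C)
    (y : V ⊗[ℚ] Lam V b) :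
    TensorProduct.lift (ext2 V C b) (TensorProduct.leftComm ℚ C V (Lam V b) (c ⊗ₜ y)) =
      c ⊗ₜ TensorProduct.lift (wdg V b) y := by
  induction y using TensorProduct.induction_on with
  | zero => simp
  | tmul u ω => simp
  | add x y hx hy =>
    rw [TensorProduct.tmul_add, map_add, map_add, hx, hy, map_add, TensorProduct.tmul_add]

lemma lift_ext2_com2 {C : Type*} [AddCommGroup C] [Module ℚ C] (b : ℕ)
    (x : C ⊗[ℚ] Lam V (b + 1)) :
    TensorProduct.lift (ext2 V C b) (com2 V C b x) = ((b : ℚ) + 1) • x := by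
  induction x using TensorProduct.induction_on with
  | zero => simp
  | tmul c ω =>
    rw [com2, LinearMap.comp_apply, LinearMap.lTensor_tmul, LinearEquiv.coe_coe, lift_leftComm,
      wdg_cml, TensorProduct.tmul_smul]
  | add x y hx hy =>
    rw [map_add, map_add, hx, hy, smul_add]

end double

namespace PolyModel

variable {V : Type*} [AddCommGroup V] [Module ℚ V] {S : Type*} [CommRing S] [Algebra ℚ S]
  (P : PolyModel V S)

lemma Dop_zero {X Y : Type*} [AddCommGroup X] [Module ℚ X] [AddCommGroup Y] [Module ℚ Y] :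
    P.Dop (0 : V →ₗ[ℚ] X →ₗ[ℚ] Y) = 0 := by
  have h : TensorProduct.lift (0 : V →ₗ[ℚ] X →ₗ[ℚ] Y) = 0 := by
    apply TensorProduct.ext'
    intro v x
    simp
  rw [Dop, h]
  simp

/-- `d_1` is injective on functions of positive degree. -/
lemma d1_inj (b c : ℕ) {z : S ⊗[ℚ] Lam V b} (hz : z ∈ P.KK (c + 1) (Lam V b))
    (h : P.Dop (ext10 V b) z = 0) : z = 0 := by
  have := P.exact_of_homotopy (W := PUnit.{1}) (ext10 V b) LinearMap.id 0 0 0
    (by intro v x; simp [ext10]) (by intro x; simp) hz (by push_cast; positivity) h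
  rw [this]
  rw [Dop_zero]
  simp

/-- `d_2` with coefficients is injective in degree `b = 0`. -/
lemma d2_inj (C : Type*) [AddCommGroup C] [Module ℚ C] (c : ℕ) {z : S ⊗[ℚ] (C ⊗[ℚ] Lam V 0)}
    (hz : z ∈ P.KK (c + 1) (C ⊗[ℚ] Lam V 0))
    (h : P.Dop (ext2 V C 0) z = 0) : z = 0 := by
  have := P.exact_of_homotopy (W := PUnit.{1}) (ext2 V C 0) (com2 V C 0) 0 0 0
    (by intro v x; rw [com2_ext2_zero]; simp) (by intro x; simp) hz (by push_cast; positivity) h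
  rw [this]
  rw [Dop_zero]
  simp

/-- A commutation principle: a second order identity may be checked on generators. -/
lemma Dop_comm {X Y Y' Z : Type*} [AddCommGroup X] [Module ℚ X] [AddCommGroup Y] [Module ℚ Y]
    [AddCommGroup Y'] [Module ℚ Y'] [AddCommGroup Z] [Module ℚ Z]
    (β : V →ₗ[ℚ] X →ₗ[ℚ] Y) (γ : V →ₗ[ℚ] Y →ₗ[ℚ] Z)
    (β' : V →ₗ[ℚ] X →ₗ[ℚ] Y') (γ' : V →ₗ[ℚ] Y' →ₗ[ℚ] Z)
    (h : ∀ v x, γ v (β v x) = γ' v (β' v x)) {c : ℕ} {z : S ⊗[ℚ] X}
    (hz : z ∈ P.KK c X) :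
    P.Dop γ (P.Dop β z) = P.Dop γ' (P.Dop β' z) := by
  refine P.KK_eqOn (f := P.Dop γ ∘ₗ P.Dop β) (g := P.Dop γ' ∘ₗ P.Dop β') (fun v x => ?_) hz
  simp only [LinearMap.comp_apply]
  match c with
  | 0 => simp [Dop_one]
  | 1 =>
    have h1 := P.Dop_pow β v 0 x
    have h2 := P.Dop_pow β' v 0 x
    simp only [zero_add] at h1 h2
    rw [h1, h2]
    simp [Dop_one]
  | (c + 2) =>
    rw [Dop_pow, Dop_pow, map_smul, map_smul, Dop_pow, Dop_pow, h]

lemma Dop_sq {X Y Z : Type*} [AddCommGroup X] [Module ℚ X] [AddCommGroup Y] [Module ℚ Y]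
    [AddCommGroup Z] [Module ℚ Z]
    (β : V →ₗ[ℚ] X →ₗ[ℚ] Y) (γ : V →ₗ[ℚ] Y →ₗ[ℚ] Z)
    (h : ∀ v x, γ v (β v x) = 0) {c : ℕ} {z : S ⊗[ℚ] X}
    (hz : z ∈ P.KK c X) :
    P.Dop γ (P.Dop β z) = 0 := by
  rw [P.Dop_comm β γ β 0 (by intro v x; rw [h]; simp) hz, Dop_zero]
  simp

/-- Core of the diagram chase. -/
lemma chase (c b : ℕ) {x : S ⊗[ℚ] (V ⊗[ℚ] Lam V b)} (hx : x ∈ P.KK (c + 1) (V ⊗[ℚ] Lam V b))
    (hy : P.Dop (ext11 V (b + 1)) (P.Dop (ext2 V V b) x) = 0)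
    (hw : P.Dop (wdg V (b + 1)) (P.Mop LinearMap.id (P.Dop (ext2 V V b) x)) = 0) :
    ∃ x' ∈ P.KK (c + 1) (V ⊗[ℚ] Lam V b), P.Dop (ext2 V V b) x' = 0 ∧
      P.Dop (ext11 V b) x' = P.Dop (ext11 V b) x := by
  set y := P.Dop (ext2 V V b) x with hydef
  have hymem : y ∈ P.KK c (V ⊗[ℚ] Lam V (b + 1)) := P.Dop_mem _ hx
  have hyw := P.exact_of_homotopy (ext11 V (b + 1)) (com11 V (b + 1)) (ext10 V (b + 1))
    LinearMap.id 1 (by intro v x; rw [com11_ext11]; simp)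
    (by intro x; rw [LinearMap.id_apply, lift_ext10, one_smul]) hymem (by positivity) hy
  set w := ((c : ℚ) + 1)⁻¹ • P.Mop LinearMap.id y with hwdef
  have hwmem : w ∈ P.KK (c + 1) (Lam V (b + 1)) :=
    Submodule.smul_mem _ _ (P.Mop_mem _ hymem)
  have hdw : P.Dop (wdg V (b + 1)) w = 0 := by
    rw [hwdef, map_smul, hw, smul_zero]
  have hww := P.exact_of_homotopy (wdg V (b + 1)) (cml V (b + 1)) (wdg V b)
    (cml V b) ((b : ℚ) + 1) (by intro v x; rw [cml_wdg_succ])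
    (by intro x; rw [wdg_cml]) hwmem (by positivity) hdw
  set w' := (((c + 1 : ℕ) : ℚ) + ((b : ℚ) + 1))⁻¹ • P.Mop (cml V b) w with hw'def
  have hw'mem : w' ∈ P.KK (c + 1 + 1) (Lam V b) :=
    Submodule.smul_mem _ _ (P.Mop_mem _ hwmem)
  refine ⟨x - P.Dop (ext10 V b) w', Submodule.sub_mem _ hx (P.Dop_mem _ hw'mem), ?_, ?_⟩
  · rw [map_sub, ← hydef]
    rw [P.Dop_comm (ext10 V b) (ext2 V V b) (wdg V b) (ext10 V (b + 1))
      (by intro v x; simp [ext10]) hw'mem, ← hww, ← hyw, sub_self]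
  · rw [map_sub, P.Dop_sq (ext10 V b) (ext11 V b) (by intro v x; simp [ext10, ww_self]) hw'mem,
      sub_zero]

/-- Exactness in coefficient degree `≥ 1`. -/
lemma hw_of_pos (c b : ℕ) {x : S ⊗[ℚ] (V ⊗[ℚ] Lam V b)}
    (hx : x ∈ P.KK (c + 2) (V ⊗[ℚ] Lam V b))
    (hy : P.Dop (ext11 V (b + 1)) (P.Dop (ext2 V V b) x) = 0) :
    P.Dop (wdg V (b + 1)) (P.Mop LinearMap.id (P.Dop (ext2 V V b) x)) = 0 := by
  set y := P.Dop (ext2 V V b) x with hydef
  have hymem : y ∈ P.KK (c + 1) (V ⊗[ℚ] Lam V (b + 1)) := P.Dop_mem _ hx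
  have hyw := P.exact_of_homotopy (ext11 V (b + 1)) (com11 V (b + 1)) (ext10 V (b + 1))
    LinearMap.id 1 (by intro v x; rw [com11_ext11]; simp)
    (by intro x; rw [LinearMap.id_apply, lift_ext10, one_smul]) hymem (by push_cast; positivity) hy
  have hwmem : P.Mop LinearMap.id y ∈ P.KK (c + 1 + 1) (Lam V (b + 1)) := P.Mop_mem _ hymem
  rw [map_smul] at hyw
  have hc : (((c + 1 : ℕ) : ℚ) + 1) ≠ 0 := by positivity
  have h1 : P.Dop (ext10 V (b + 1)) (P.Mop LinearMap.id y) = (((c + 1 : ℕ) : ℚ) + 1) • y := by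
    nth_rewrite 2 [hyw]
    rw [smul_smul, mul_inv_cancel₀ hc, one_smul]
  refine P.d1_inj (b + 2) c (P.Dop_mem _ hwmem) ?_
  rw [P.Dop_comm (wdg V (b + 1)) (ext10 V (b + 2)) (ext10 V (b + 1)) (ext2 V V (b + 1))
    (by intro v x; simp [ext10]) hwmem, h1, map_smul, hydef,
    P.Dop_sq (ext2 V V b) (ext2 V V (b + 1)) ?_ hx, smul_zero]
  intro v x
  induction x using TensorProduct.induction_on with
  | zero => simp
  | tmul u ω => simp [wdg_wdg_same]
  | add x y hx hy => rw [map_add, map_add, hx, hy, add_zero]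

lemma hw_of_zero (b : ℕ) {x : S ⊗[ℚ] (V ⊗[ℚ] Lam V b)}
    (hx : x ∈ P.KK 1 (V ⊗[ℚ] Lam V b))
    (h : (TensorProduct.lift (wdg2 V b)).lTensor S (P.Dop (ext11 V b) x) = 0) :
    P.Dop (wdg V (b + 1)) (P.Mop LinearMap.id (P.Dop (ext2 V V b) x)) = 0 := by
  have key := P.KK_eqOn
    (f := P.Dop (wdg V (b + 1)) ∘ₗ P.Mop LinearMap.id ∘ₗ P.Dop (ext2 V V b))
    (g := -((TensorProduct.lift (wdg2 V b)).lTensor S ∘ₗ P.Dop (ext11 V b)))
    (c := 1) ?_ hx
  · simp only [LinearMap.comp_apply, LinearMap.neg_apply] at key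
    rw [key, h, neg_zero]
  · intro v x
    induction x using TensorProduct.induction_on with
    | zero => simp
    | tmul u ω =>
      have h1 := P.Dop_pow (ext2 V V b) v 0 (u ⊗ₜ ω)
      have h2 := P.Dop_pow (ext11 V b) v 0 (u ⊗ₜ ω)
      simp only [zero_add, pow_one, pow_zero, Nat.cast_zero, one_smul, ext2_tmul, ext11_tmul]
        at h1 h2
      simp only [LinearMap.comp_apply, LinearMap.neg_apply, pow_one]
      rw [h1, h2, Mop_tmul, LinearMap.id_apply, mulAux_tmul, one_mul, Dop_l,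
        LinearMap.lTensor_tmul, TensorProduct.lift.tmul, ← wdg2_ww, ← TensorProduct.tmul_neg,
        ww_swap, map_neg, LinearMap.neg_apply]
    | add x y hx hy =>
      rw [TensorProduct.tmul_add, map_add, map_add, hx, hy]

lemma lift_of_closed (c b : ℕ) {x : S ⊗[ℚ] (V ⊗[ℚ] Lam V (b + 1))}
    (hx : x ∈ P.KK (c + 1) (V ⊗[ℚ] Lam V (b + 1)))
    (h : P.Dop (ext2 V V (b + 1)) x = 0) :
    ∃ x' ∈ P.KK (c + 2) (V ⊗[ℚ] Lam V b),
      P.Dop (ext11 V (b + 1)) x = P.Dop (ext2 V (Lam V 2) b) (P.Dop (ext11 V b) x') := by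
  have h1 := P.exact_of_homotopy (ext2 V V (b + 1)) (com2 V V (b + 1)) (ext2 V V b)
    (com2 V V b) ((b : ℚ) + 1) (by intro v x; rw [com2_ext2_succ])
    (by intro x; rw [lift_ext2_com2]) hx (by positivity) h
  refine ⟨_, Submodule.smul_mem _ (((c + 1 : ℕ) : ℚ) + ((b : ℚ) + 1))⁻¹
    (P.Mop_mem (com2 V V b) hx), ?_⟩
  rw [← P.Dop_comm (ext2 V V b) (ext11 V (b + 1)) (ext11 V b) (ext2 V (Lam V 2) b) ?_
    (Submodule.smul_mem _ _ (P.Mop_mem (com2 V V b) hx)), ← h1]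
  intro v x
  induction x using TensorProduct.induction_on with
  | zero => simp
  | tmul u ω => simp
  | add x y hx hy => rw [map_add, map_add, map_add, map_add, hx, hy]

lemma comm_12 (c b : ℕ) {x : S ⊗[ℚ] (V ⊗[ℚ] Lam V b)}
    (hx : x ∈ P.KK c (V ⊗[ℚ] Lam V b)) :
    P.Dop (ext11 V (b + 1)) (P.Dop (ext2 V V b) x) =
      P.Dop (ext2 V (Lam V 2) b) (P.Dop (ext11 V b) x) := by
  refine P.Dop_comm (ext2 V V b) (ext11 V (b + 1)) (ext11 V b) (ext2 V (Lam V 2) b) ?_ hx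
  intro v x
  induction x using TensorProduct.induction_on with
  | zero => simp
  | tmul u ω => simp
  | add x y hx hy => rw [map_add, map_add, map_add, map_add, hx, hy]

/-- **Exactness at `M_{c+3} ⊗ Λ^{b+1}`.** -/
theorem exact_pos_succ (c b : ℕ) {x : S ⊗[ℚ] (V ⊗[ℚ] Lam V (b + 1))}
    (hx : x ∈ P.KK (c + 2) (V ⊗[ℚ] Lam V (b + 1)))
    (h : P.Dop (ext2 V (Lam V 2) (b + 1)) (P.Dop (ext11 V (b + 1)) x) = 0) :
    ∃ x' ∈ P.KK (c + 3) (V ⊗[ℚ] Lam V b),
      P.Dop (ext11 V (b + 1)) x = P.Dop (ext2 V (Lam V 2) b) (P.Dop (ext11 V b) x') := by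
  have hy := P.comm_12 (c + 2) (b + 1) hx
  rw [h] at hy
  obtain ⟨x', hx', h1, h2⟩ := P.chase (c + 1) (b + 1) hx hy (P.hw_of_pos c (b + 1) hx hy)
  rw [← h2]
  exact P.lift_of_closed (c + 1) b hx' h1

/-- **Exactness at `M_2 ⊗ Λ^{b+1}`.** -/
theorem exact_zero_succ (b : ℕ) {x : S ⊗[ℚ] (V ⊗[ℚ] Lam V (b + 1))}
    (hx : x ∈ P.KK 1 (V ⊗[ℚ] Lam V (b + 1)))
    (h : (TensorProduct.lift (wdg2 V (b + 1))).lTensor S (P.Dop (ext11 V (b + 1)) x) = 0) :
    ∃ x' ∈ P.KK 2 (V ⊗[ℚ] Lam V b),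
      P.Dop (ext11 V (b + 1)) x = P.Dop (ext2 V (Lam V 2) b) (P.Dop (ext11 V b) x') := by
  have hy : P.Dop (ext11 V (b + 1 + 1)) (P.Dop (ext2 V V (b + 1)) x) = 0 :=
    P.Dop_KK_zero _ (P.Dop_mem _ hx)
  obtain ⟨x', hx', h1, h2⟩ := P.chase 0 (b + 1) hx hy (P.hw_of_zero (b + 1) hx h)
  rw [← h2]
  exact P.lift_of_closed 0 b hx' h1

end PolyModel

end Pool.Agent.Helper91.Gon
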