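import Mathlib

/-!
Wedge multiplication `V -> Λ^n -> Λ^(n+1)` and the comultiplication `Λ^(n+1) -> V ⊗ Λ^n`
of exterior powers over a commutative ring.
-/

namespace Pool.Agent.Helper91.Gon

open scoped TensorProduct
open TensorProduct

universe u v

section Ext

variable {K : Type u} [CommRing K] {V : Type v} [AddCommGroup V] [Module K V]

variable (K V) in
/-- `(v, ω) ↦ v ∧ ω`. -/
noncomputable def wedge (n : ℕ) : V →ₗ[K] ⋀[K]^n V →ₗ[K] ⋀[K]^(n + 1) V :=
  (exteriorPower.alternatingMapLinearEquiv (R := K) (M := V) (N := ⋀[K]^(n + 1) V)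
    (n := n)).toLinearMap ∘ₗ (exteriorPower.ιMulti K (n + 1) (M := V)).curryLeft

@[simp] lemma wedge_ιMulti (n : ℕ) (v : V) (w : Fin n → V) :
    wedge K V n v (exteriorPower.ιMulti K n w) =
      exteriorPower.ιMulti K (n + 1) (Matrix.vecCons v w) := by
  simp [wedge]

variable (K V) in
/-- comultiplication `w_0 ∧ ... ∧ w_n ↦ ∑ (-1)^i w_i ⊗ (w_0 ∧ ... ŵ_i ... ∧ w_n)`. -/
noncomputable def comul (n : ℕ) : ⋀[K]^(n + 1) V →ₗ[K] V ⊗[K] ⋀[K]^n V :=
  exteriorPower.alternatingMapLinearEquiv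
    (AlternatingMap.alternatizeUncurryFin
      ((exteriorPower.alternatingMapLinearEquiv (R := K) (M := V) (N := V ⊗[K] ⋀[K]^n V)
        (n := n)).symm.toLinearMap ∘ₗ TensorProduct.mk K V (⋀[K]^n V)))

lemma comul_ιMulti (n : ℕ) (w : Fin (n + 1) → V) :
    comul K V n (exteriorPower.ιMulti K (n + 1) w) =
      ∑ i : Fin (n + 1), (-1 : ℤ) ^ (i : ℕ) •
        (w i ⊗ₜ[K] exteriorPower.ιMulti K n (Fin.removeNth i w)) := by
  simp [comul, AlternatingMap.alternatizeUncurryFin_apply]

/-- `wedge ∘ comul = n + 1`. -/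
lemma wedge_comul (n : ℕ) (ω : ⋀[K]^(n + 1) V) :
    TensorProduct.lift (wedge K V n) (comul K V n ω) = ((n : ℤ) + 1) • ω := by
  have h : TensorProduct.lift (wedge K V n) ∘ₗ comul K V n =
      ((n : ℤ) + 1) • (LinearMap.id : ⋀[K]^(n + 1) V →ₗ[K] ⋀[K]^(n + 1) V) := by
    apply exteriorPower.linearMap_ext
    ext1 w
    simp only [LinearMap.compAlternatingMap_apply, LinearMap.comp_apply, LinearMap.smul_apply,
      LinearMap.id_apply]
    rw [comul_ιMulti, map_sum]
    have h2 : ∀ i : Fin (n + 1), TensorProduct.lift (wedge K V n)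
        ((-1 : ℤ) ^ (i : ℕ) • (w i ⊗ₜ[K] exteriorPower.ιMulti K n (Fin.removeNth i w))) =
        exteriorPower.ιMulti K (n + 1) w := by
      intro i
      rw [map_zsmul, TensorProduct.lift.tmul, wedge_ιMulti]
      have h3 := AlternatingMap.map_insertNth (exteriorPower.ιMulti K (n + 1) (M := V)) i (w i)
        (Fin.removeNth i w)
      rw [Fin.insertNth_self_removeNth] at h3
      exact h3.symm
    rw [Finset.sum_congr rfl (fun i _ => h2 i)]
    simp [add_smul]
  exact LinearMap.congr_fun h ω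

/-- `comul (v ∧ ω) = v ⊗ ω - (1 ⊗ v ∧) comul ω` in positive degree. -/
lemma comul_wedge_succ (n : ℕ) (v : V) (ω : ⋀[K]^(n + 1) V) :
    comul K V (n + 1) (wedge K V (n + 1) v ω) =
      v ⊗ₜ[K] ω - (wedge K V n v).lTensor V (comul K V n ω) := by
  have h : comul K V (n + 1) ∘ₗ wedge K V (n + 1) v =
      TensorProduct.mk K V (⋀[K]^(n + 1) V) v - (wedge K V n v).lTensor V ∘ₗ comul K V n := by
    apply exteriorPower.linearMap_ext
    ext1 w
    simp only [LinearMap.compAlternatingMap_apply, LinearMap.comp_apply, LinearMap.sub_apply,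
      TensorProduct.mk_apply]
    rw [wedge_ιMulti, comul_ιMulti, comul_ιMulti, Fin.sum_univ_succ, map_sum, sub_eq_add_neg,
      ← Finset.sum_neg_distrib]
    congr 1
    · simp
    · apply Finset.sum_congr rfl
      intro i _
      rw [map_zsmul, LinearMap.lTensor_tmul, wedge_ιMulti]
      rw [Fin.val_succ, pow_succ, mul_neg_one, neg_smul]
      congr 3
      congr 1
      funext j
      refine Fin.cases ?_ (fun j => ?_) j
      · simp [Fin.removeNth]
      · simp [Fin.removeNth, Matrix.vecCons]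
  exact LinearMap.congr_fun h ω

/-- `comul (v ∧ ω) = v ⊗ ω` in degree zero. -/
lemma comul_wedge_zero (v : V) (ω : ⋀[K]^0 V) :
    comul K V 0 (wedge K V 0 v ω) = v ⊗ₜ[K] ω := by
  have h : comul K V 0 ∘ₗ wedge K V 0 v = TensorProduct.mk K V (⋀[K]^0 V) v := by
    apply exteriorPower.linearMap_ext
    ext1 w
    simp only [LinearMap.compAlternatingMap_apply, LinearMap.comp_apply, TensorProduct.mk_apply]
    rw [wedge_ιMulti, comul_ιMulti]
    simp
  exact LinearMap.congr_fun h ω

lemma wedge_wedge_same (n : ℕ) (v : V) (ω : ⋀[K]^n V) :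
    wedge K V (n + 1) v (wedge K V n v ω) = 0 := by
  have h : wedge K V (n + 1) v ∘ₗ wedge K V n v = 0 := by
    apply exteriorPower.linearMap_ext
    ext1 w
    simp only [LinearMap.compAlternatingMap_apply, LinearMap.comp_apply, LinearMap.zero_apply]
    rw [wedge_ιMulti, wedge_ιMulti]
    exact (exteriorPower.ιMulti K (n + 2) (M := V)).map_eq_zero_of_eq _ (i := 0) (j := 1)
      (by simp) (by simp)
  exact LinearMap.congr_fun h ω

end Ext

end Pool.Agent.Helper91.Gon
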