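import Pool.Agent.Helper91.Gon.Glue
import Pool.Agent.Helper72.Gon.SpanT

/-!
# `Γ(F, n) ⊗ ℚ` is exact in all degrees for `F = K(t)`, `K` an algebraic closure of `𝔽_p`
-/

namespace Pool.Agent.Helper91.Gon.Glue

open scoped TensorProduct
open TensorProduct
open Helper14.Gon

universe u

section

variable {K : Type u} [Field K] [IsAlgClosed K] {p : ℕ}

theorem spanProp_ratFunc [Fact p.Prime] [Algebra (ZMod p) K] [Algebra.IsAlgebraic (ZMod p) K] :
    Abs.SpanProp (aq : P1 (RatFunc K) → Vq (RatFunc K)) bq := by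
  intro N T hT u v
  refine H72Gon.spanning_tensor p T ?_ u v
  intro f g hfg
  have h := hT (some (f : RatFunc K))
  have h1 : aq (some (f : RatFunc K)) = (1 : ℚ) ⊗ₜ[ℤ] Additive.ofMul f := by
    have : elx (some (f : RatFunc K)) = Additive.ofMul f := by
      simp only [elx, Option.elim, lgm]
      rw [dif_neg f.ne_zero]
      congr 1
      ext
      rfl
    rw [aq, this]
  have h2 : bq (some (f : RatFunc K)) = (1 : ℚ) ⊗ₜ[ℤ] Additive.ofMul g := by
    have h3 : (1 : RatFunc K) - f = g := by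
      rw [← hfg]
      ring
    have : ely (some (f : RatFunc K)) = Additive.ofMul g := by
      simp only [ely, Option.elim, lgm]
      rw [h3, dif_neg g.ne_zero]
      congr 1
      ext
      rfl
    rw [bq, this]
  rw [h1, h2] at h
  exact h

variable (hp : p.Prime) [CharP K p] (h : ∀ x : K, ∃ m : ℕ, m ≠ 0 ∧ x ^ p ^ m = x)

include hp h

theorem spanProp_of : Abs.SpanProp (aq : P1 (RatFunc K) → Vq (RatFunc K)) bq := by
  haveI : Fact p.Prime := ⟨hp⟩
  letI : Algebra (ZMod p) K := ZMod.algebra K p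
  haveI : Algebra.IsAlgebraic (ZMod p) K := by
    refine ⟨fun x => ?_⟩
    obtain ⟨m, hm, hx⟩ := h x
    refine ⟨Polynomial.X ^ p ^ m - Polynomial.X, ?_, ?_⟩
    · apply Polynomial.Monic.ne_zero
      apply Polynomial.monic_X_pow_sub
      rw [Polynomial.degree_X]
      have : 1 < p ^ m := Nat.one_lt_pow hm hp.one_lt
      exact_mod_cast this
    · simp [hx]
  exact spanProp_ratFunc (p := p)

/-- Exactness at `B_{k+3} ⊗ Λ^{j+1}`. -/
theorem ratFunc_exact_dd (k j : ℕ) (z : CC (k + 1) (j + 1) (RatFunc K))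
    (hz : dd k (j + 1) (RatFunc K) z = 0) : ∃ y, dd (k + 1) j (RatFunc K) y = z :=
  exact_dd (fun k => ratFunc_deg1 hp h k) (spanProp_of hp h) k j z hz

/-- Exactness at `B_2 ⊗ Λ^{j+1}`. -/
theorem ratFunc_exact_dl (j : ℕ) (z : CC 0 (j + 1) (RatFunc K))
    (hz : dl (j + 1) (RatFunc K) z = 0) : ∃ y, dd 0 j (RatFunc K) y = z :=
  exact_dl (fun k => ratFunc_deg1 hp h k) (spanProp_of hp h) j z hz

/-- Surjectivity at the last place. -/
theorem ratFunc_surj_dl (j : ℕ) (z : TT (j + 2) (RatFunc K)) :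
    ∃ y, dl j (RatFunc K) y = z :=
  surj_dl (spanProp_of hp h) j z

end

end Pool.Agent.Helper91.Gon.Glue
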