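import Pool.Agent.Helper91.Gon.BaseChange
import Pool.Agent.Helper14.Gon.Final

/-!
# Exactness of `Γ(F, n) ⊗ ℚ` (helper14's integral definitions) from `H^1 = 0` and spanning
-/

namespace Pool.Agent.Helper91.Gon.Glue

open scoped TensorProduct
open TensorProduct
open Helper14.Gon

universe u

variable {F : Type u} [Field F]

/-- `B_{k+2}(F) ⊗ ℚ`. -/
abbrev Bq (k : ℕ) (F : Type u) [Field F] : Type u := ℚ ⊗[ℤ] BB k F

/-- `F^* ⊗ ℚ`. -/
abbrev Vq (F : Type u) [Field F] : Type u := ℚ ⊗[ℤ] Additive Fˣ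

/-- `{x}_{k+2}`. -/
noncomputable def sq (k : ℕ) (x : P1 F) : Bq k F := (1 : ℚ) ⊗ₜ[ℤ] clb k x

/-- `log x`. -/
noncomputable def aq (x : P1 F) : Vq F := (1 : ℚ) ⊗ₜ[ℤ] elx x

/-- `log (1 - x)`. -/
noncomputable def bq (x : P1 F) : Vq F := (1 : ℚ) ⊗ₜ[ℤ] ely x

/-- `B ⊗ Λ^j ⊗ ℚ = (B ⊗ ℚ) ⊗_ℚ Λ^j_ℚ(F^* ⊗ ℚ)`. -/
noncomputable def Phi (k j : ℕ) (F : Type u) [Field F] :
    CC k j F ≃ₗ[ℚ] Bq k F ⊗[ℚ] Lam (Vq F) j :=
  (show CC k j F ≃ₗ[ℚ] (ℚ ⊗[ℤ] BB k F) ⊗[ℚ] (ℚ ⊗[ℤ] LM F j) from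
    TensorProduct.AlgebraTensorModule.distribBaseChange ℤ ℚ (BB k F) (LM F j)).trans
    (TensorProduct.congr (LinearEquiv.refl ℚ (Bq k F)) (BC.eLam (Additive Fˣ) j))

lemma Phi_gn (k j : ℕ) (x : P1 F) (v : Fin j → MU F) :
    Phi k j F (gn k x v) = sq k x ⊗ₜ[ℚ] Abs.iota j (fun i => (1 : ℚ) ⊗ₜ[ℤ] v i) := by
  rw [← BC.eLam_one]
  rfl

lemma Phi_symm (k j : ℕ) (x : P1 F) (v : Fin j → MU F) :
    (Phi k j F).symm (sq k x ⊗ₜ[ℚ] Abs.iota j (fun i => (1 : ℚ) ⊗ₜ[ℤ] v i)) = gn k x v := by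
  rw [LinearEquiv.symm_apply_eq, Phi_gn]

/-- `Λ^n F^* ⊗ ℚ = Λ^n_ℚ(F^* ⊗ ℚ)`. -/
noncomputable def Psi (n : ℕ) (F : Type u) [Field F] : TT n F ≃ₗ[ℚ] Lam (Vq F) n :=
  BC.eLam (Additive Fˣ) n

lemma Psi_tp (n : ℕ) (v : Fin n → MU F) :
    Psi n F (tp v) = Abs.iota n (fun i => (1 : ℚ) ⊗ₜ[ℤ] v i) := BC.eLam_one n v

lemma sq_span (k : ℕ) : Submodule.span ℚ (Set.range (sq k : P1 F → Bq k F)) = ⊤ := by
  rw [eq_top_iff]
  intro z hz
  clear hz
  induction z using TensorProduct.induction_on with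
  | zero => exact Submodule.zero_mem _
  | tmul q b =>
    have h1 : q ⊗ₜ[ℤ] b = q • ((1 : ℚ) ⊗ₜ[ℤ] b) := by
      rw [TensorProduct.smul_tmul', smul_eq_mul, mul_one]
    rw [h1]
    apply Submodule.smul_mem
    clear h1
    obtain ⟨ξ, rfl⟩ := QuotientAddGroup.mk_surjective b
    let χ : ZP F →+ Bq k F :=
      (TensorProduct.mk ℤ ℚ (BB k F) 1).toAddMonoidHom.comp (QuotientAddGroup.mk' (RR k F))
    change χ ξ ∈ _
    induction ξ using Finsupp.induction_linear with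
    | zero =>
      rw [map_zero]
      exact Submodule.zero_mem _
    | add f g hf hg =>
      rw [map_add]
      exact Submodule.add_mem _ hf hg
    | single x m =>
      have h2 : (Finsupp.single x m : ZP F) = m • (Finsupp.single x 1 : ZP F) := by
        rw [Finsupp.smul_single, smul_eq_mul, mul_one]
      rw [h2, map_zsmul, ← Int.cast_smul_eq_zsmul ℚ]
      exact Submodule.smul_mem _ _ (Submodule.subset_span ⟨x, rfl⟩)
  | add a b ha hb => exact Submodule.add_mem _ ha hb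

/-- `B = B ⊗ Λ^0`. -/
noncomputable def eps (B V : Type*) [AddCommGroup B] [Module ℚ B] [AddCommGroup V] [Module ℚ V] :
    B ≃ₗ[ℚ] B ⊗[ℚ] Lam V 0 :=
  (TensorProduct.rid ℚ B).symm.trans (TensorProduct.congr (LinearEquiv.refl ℚ B)
    (show ℚ ≃ₗ[ℚ] Lam V 0 from (exteriorPower.zeroEquiv ℚ V).symm))

lemma eps_apply {B V : Type*} [AddCommGroup B] [Module ℚ B] [AddCommGroup V] [Module ℚ V] (z : B)
    (w : Fin 0 → V) : eps B V z = z ⊗ₜ[ℚ] Abs.iota 0 w := by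
  have h : (exteriorPower.zeroEquiv ℚ V).symm 1 = exteriorPower.ιMulti ℚ 0 w := by
    rw [LinearEquiv.symm_apply_eq, exteriorPower.zeroEquiv_ιMulti]
  change z ⊗ₜ[ℚ] ((exteriorPower.zeroEquiv ℚ V).symm 1) = z ⊗ₜ[ℚ] Abs.iota 0 w
  rw [h]
  rfl

/-- `Λ^1 V = V`. -/
noncomputable def one (V : Type*) [AddCommGroup V] [Module ℚ V] : Lam V 1 ≃ₗ[ℚ] V :=
  exteriorPower.oneEquiv ℚ V

lemma one_iota {V : Type*} [AddCommGroup V] [Module ℚ V] (w : Fin 1 → V) :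
    one V (Abs.iota 1 w) = w 0 := exteriorPower.oneEquiv_ιMulti w

/-- the differential `B_{n+3} ⊗ ℚ → (B_{n+2} ⊗ ℚ) ⊗ (F^* ⊗ ℚ)`. -/
noncomputable def dSq (n : ℕ) : Bq (n + 1) F →ₗ[ℚ] Bq n F ⊗[ℚ] Vq F :=
  (TensorProduct.congr (LinearEquiv.refl ℚ (Bq n F)) (one (Vq F))).toLinearMap ∘ₗ
    (Phi n 1 F).toLinearMap ∘ₗ dd n 0 F ∘ₗ (Phi (n + 1) 0 F).symm.toLinearMap ∘ₗ
      (eps (Bq (n + 1) F) (Vq F)).toLinearMap

lemma dSq_sq (n : ℕ) (x : P1 F) : dSq n (sq (n + 1) x) = sq n x ⊗ₜ[ℚ] aq x := by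
  rw [dSq, LinearMap.comp_apply, LinearMap.comp_apply, LinearMap.comp_apply,
    LinearMap.comp_apply, LinearEquiv.coe_coe, LinearEquiv.coe_coe, LinearEquiv.coe_coe,
    LinearEquiv.coe_coe, eps_apply _ (fun i : Fin 0 => (1 : ℚ) ⊗ₜ[ℤ] (Fin.elim0 i : MU F)),
    Phi_symm (n + 1) 0 x (fun i => Fin.elim0 i), dd_gn, Phi_gn, TensorProduct.congr_tmul,
    one_iota]
  rfl

lemma dSq_injective (h : ∀ k, ZZ k F = ⊥) (n : ℕ) : Function.Injective (dSq n : Bq (n + 1) F →ₗ[ℚ] _) := by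
  have h1 : Function.Injective (dd n 0 F) := by
    rw [← LinearMap.ker_eq_bot]
    exact h (n + 1)
  rw [dSq, LinearMap.coe_comp, LinearMap.coe_comp, LinearMap.coe_comp, LinearMap.coe_comp]
  exact (LinearEquiv.injective _).comp ((LinearEquiv.injective _).comp
    (h1.comp ((LinearEquiv.injective _).comp (LinearEquiv.injective _))))

/-- the differential `B_2 ⊗ ℚ → Λ²_ℚ (F^* ⊗ ℚ)`. -/
noncomputable def d2q : Bq 0 F →ₗ[ℚ] Lam (Vq F) 2 :=
  (Psi 2 F).toLinearMap ∘ₗ dl 0 F ∘ₗ (Phi 0 0 F).symm.toLinearMap ∘ₗ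
      (eps (Bq 0 F) (Vq F)).toLinearMap

lemma d2q_sq (x : P1 F) : d2q (sq 0 x) = ww (Vq F) (bq x) (aq x) := by
  rw [d2q, LinearMap.comp_apply, LinearMap.comp_apply, LinearMap.comp_apply,
    LinearEquiv.coe_coe, LinearEquiv.coe_coe, LinearEquiv.coe_coe,
    eps_apply _ (fun i : Fin 0 => (1 : ℚ) ⊗ₜ[ℤ] (Fin.elim0 i : MU F)),
    Phi_symm 0 0 x (fun i => Fin.elim0 i), dl_gn, Psi_tp, ← Abs.iota_two]
  congr 1
  funext i
  fin_cases i <;> rfl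

lemma d2q_injective (h : ∀ k, ZZ k F = ⊥) : Function.Injective (d2q : Bq 0 F →ₗ[ℚ] _) := by
  have h1 : Function.Injective (dl 0 F) := by
    rw [← LinearMap.ker_eq_bot]
    exact h 0
  rw [d2q, LinearMap.coe_comp, LinearMap.coe_comp, LinearMap.coe_comp]
  exact (LinearEquiv.injective _).comp
    (h1.comp ((LinearEquiv.injective _).comp (LinearEquiv.injective _)))

lemma Phi_dd (n j : ℕ) (z : CC (n + 1) j F) :
    Phi n (j + 1) F (dd n j F z) = Abs.diffS (V := Vq F) (B := fun n => Bq n F) dSq n j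
      (Phi (n + 1) j F z) := by
  have h : (Phi n (j + 1) F).toLinearMap ∘ₗ dd n j F =
      Abs.diffS (V := Vq F) (B := fun n => Bq n F) dSq n j ∘ₗ
        (Phi (n + 1) j F).toLinearMap := by
    refine CC_ext fun x v => ?_
    rw [LinearMap.comp_apply, LinearMap.comp_apply, LinearEquiv.coe_coe, LinearEquiv.coe_coe,
      dd_gn, Phi_gn, Phi_gn]
    rw [Abs.diffS_s (V := Vq F) (B := fun n => Bq n F) (s := fun n => sq n) (a := aq)
      (dS := dSq) dSq_sq n j x, Abs.wdg_iota]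
    congr 2
    funext i
    refine Fin.cases ?_ (fun i => ?_) i <;> rfl
  exact LinearMap.congr_fun h z

lemma Psi_dl (j : ℕ) (z : CC 0 j F) :
    Psi (j + 2) F (dl j F z) = Abs.diff2 (V := Vq F) (B := fun n => Bq n F) d2q j
      (Phi 0 j F z) := by
  have h : (Psi (j + 2) F).toLinearMap ∘ₗ dl j F =
      Abs.diff2 (V := Vq F) (B := fun n => Bq n F) d2q j ∘ₗ
        (Phi 0 j F).toLinearMap := by
    refine CC_ext fun x v => ?_
    rw [LinearMap.comp_apply, LinearMap.comp_apply, LinearEquiv.coe_coe, LinearEquiv.coe_coe,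
      dl_gn, Psi_tp, Phi_gn]
    rw [Abs.diff2_s (V := Vq F) (B := fun n => Bq n F) (s := fun n => sq n) (a := aq) (b := bq)
      (d2 := d2q) d2q_sq j x, wdg2_ww, Abs.wdg_iota, Abs.wdg_iota]
    congr 1
    funext i
    refine Fin.cases ?_ (fun i => ?_) i
    · rfl
    · refine Fin.cases ?_ (fun i => ?_) i <;> rfl
  exact LinearMap.congr_fun h z

section main

variable (hZ : ∀ k, ZZ k F = ⊥) (hS : Abs.SpanProp (aq : P1 F → Vq F) bq)

include hZ hS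

/-- Exactness at `B_{k+3} ⊗ Λ^{j+1}`. -/
theorem exact_dd (k j : ℕ) (z : CC (k + 1) (j + 1) F) (hz : dd k (j + 1) F z = 0) :
    ∃ y, dd (k + 1) j F y = z := by
  have h := Abs.exact_mid (V := Vq F) (B := fun n => Bq n F) (s := fun n => sq n) (a := aq)
    (b := bq) (d2 := d2q) (dS := dSq) sq_span d2q_sq dSq_sq (d2q_injective hZ)
    (dSq_injective hZ) hS k j
  have h1 := Phi_dd k (j + 1) z
  rw [hz, map_zero] at h1
  obtain ⟨y, hy⟩ := (h _).1 h1.symm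
  refine ⟨(Phi (k + 2) j F).symm y, ?_⟩
  apply (Phi (k + 1) (j + 1) F).injective
  rw [Phi_dd, LinearEquiv.apply_symm_apply]
  exact hy

/-- Exactness at `B_2 ⊗ Λ^{j+1}`. -/
theorem exact_dl (j : ℕ) (z : CC 0 (j + 1) F) (hz : dl (j + 1) F z = 0) :
    ∃ y, dd 0 j F y = z := by
  have h := Abs.exact_two (V := Vq F) (B := fun n => Bq n F) (s := fun n => sq n) (a := aq)
    (b := bq) (d2 := d2q) (dS := dSq) sq_span d2q_sq dSq_sq (d2q_injective hZ)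
    (dSq_injective hZ) hS j
  have h1 := Psi_dl (j + 1) z
  rw [hz, map_zero] at h1
  obtain ⟨y, hy⟩ := (h _).1 h1.symm
  refine ⟨(Phi 1 j F).symm y, ?_⟩
  apply (Phi 0 (j + 1) F).injective
  rw [Phi_dd, LinearEquiv.apply_symm_apply]
  exact hy

omit hZ in
/-- Surjectivity at the last place. -/
theorem surj_dl (j : ℕ) (z : TT (j + 2) F) : ∃ y, dl j F y = z := by
  obtain ⟨y, hy⟩ := Abs.surj_2 (V := Vq F) (B := fun n => Bq n F) (s := fun n => sq n) (a := aq)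
    (b := bq) (d2 := d2q) (dS := dSq) d2q_sq dSq_sq hS j (Psi (j + 2) F z)
  refine ⟨(Phi 0 j F).symm y, ?_⟩
  apply (Psi (j + 2) F).injective
  rw [Psi_dl, LinearEquiv.apply_symm_apply]
  exact hy

end main

end Pool.Agent.Helper91.Gon.Glue
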