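import Pool.Agent.Helper91.Gon.Basic
import Pool.Agent.Helper91.Gon.Model

/-!
The embedding `κ_m : B_{m+2}(F) → S ⊗ Λ²(F^*_ℚ)`, `{x} ↦ l(x)^m ⊗ ((1-x) ∧ x)`, when
`R_n(F) = A_n(F)` for all `n ≥ 2`.
-/

namespace Pool.Agent.Helper91.Gon

open scoped TensorProduct
open TensorProduct

universe u

namespace PolyModel

variable {V : Type*} [AddCommGroup V] [Module ℚ V] {S : Type*} [CommRing S] [Algebra ℚ S]
  (P : PolyModel V S)

lemma Dmk_inj (X : Type*) [AddCommGroup X] [Module ℚ X] (c : ℕ) {z : S ⊗[ℚ] X}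
    (hz : z ∈ P.KK (c + 1) X) (h : P.Dop (TensorProduct.mk ℚ V X) z = 0) : z = 0 := by
  have := P.exact_of_homotopy (W := PUnit.{1}) (TensorProduct.mk ℚ V X) LinearMap.id 0 0 0
    (by intro v x; simp) (by intro x; simp) hz (by push_cast; positivity) h
  rw [this, Dop_zero]
  simp

end PolyModel

section kappa

variable {F : Type u} [Field F] {S : Type u} [CommRing S] [Algebra ℚ S] (P : PolyModel (VF F) S)

/-- `{x} ↦ l(x)^m ⊗ ((1-x) ∧ x)`. -/
noncomputable def kap (m : ℕ) : QP F →ₗ[ℚ] S ⊗[ℚ] Lam (VF F) 2 :=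
  Finsupp.lift (S ⊗[ℚ] Lam (VF F) 2) ℚ (OnePoint F) fun x =>
    match x with
    | none => 0
    | some x => (P.l (lg x) ^ m) ⊗ₜ[ℚ] ww (VF F) (lg (1 - x)) (lg x)

lemma kap_gen (m : ℕ) (x : F) : kap P m (gen (x : OnePoint F)) =
    (P.l (lg x) ^ m) ⊗ₜ[ℚ] ww (VF F) (lg (1 - x)) (lg x) := by
  simp only [kap, gen, Finsupp.lift_apply]
  rw [Finsupp.sum_single_index (by simp), one_smul]

lemma kap_infty (m : ℕ) : kap P m (gen (OnePoint.infty : OnePoint F)) = 0 := by
  simp only [kap, gen, Finsupp.lift_apply]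
  rw [Finsupp.sum_single_index (by simp), one_smul]

lemma kap_mem (m : ℕ) (α : QP F) : kap P m α ∈ P.KK m (Lam (VF F) 2) := by
  have h : (⊤ : Submodule ℚ (QP F)) ≤ (P.KK m (Lam (VF F) 2)).comap (kap P m) := by
    have hs : (⊤ : Submodule ℚ (QP F)) = Submodule.span ℚ (Set.range (fun x : OnePoint F =>
        (Finsupp.single x (1 : ℚ)))) := by
      have := (Finsupp.basisSingleOne (R := ℚ) (ι := OnePoint F)).span_eq
      rw [← this]
      congr 1
    rw [hs, Submodule.span_le]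
    rintro _ ⟨x, rfl⟩
    change kap P m (gen x) ∈ P.KK m (Lam (VF F) 2)
    cases x using OnePoint.rec with
    | infty => rw [kap_infty]; exact Submodule.zero_mem _
    | coe x => rw [kap_gen]; exact P.mem_KK m _ _
  exact h (Submodule.mem_top)

/-- The descended map `B_{m+2}(F) → S ⊗ Λ²`. -/
noncomputable def kapB (m : ℕ) : B (m + 2) F →ₗ[ℚ] S ⊗[ℚ] Lam (VF F) 2 :=
  descend (R (m + 2) F) (kap P m)

/-- `(s ⊗ x) ⊗ v ↦ s ⊗ (v ⊗ x)`. -/
noncomputable def rho (S X V : Type*) [AddCommGroup S] [Module ℚ S] [AddCommGroup X] [Module ℚ X]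
    [AddCommGroup V] [Module ℚ V] : (S ⊗[ℚ] X) ⊗[ℚ] V ≃ₗ[ℚ] S ⊗[ℚ] (V ⊗[ℚ] X) :=
  (TensorProduct.assoc ℚ S X V).trans (TensorProduct.congr (LinearEquiv.refl ℚ S)
    (TensorProduct.comm ℚ X V))

@[simp] lemma rho_tmul {S X V : Type*} [AddCommGroup S] [Module ℚ S] [AddCommGroup X] [Module ℚ X]
    [AddCommGroup V] [Module ℚ V] (s : S) (x : X) (v : V) :
    rho S X V ((s ⊗ₜ x) ⊗ₜ v) = s ⊗ₜ (v ⊗ₜ x) := by
  simp [rho]

lemma kapB_cl (m : ℕ) (h : R (m + 2) F ≤ LinearMap.ker (kap P m)) (x : F) :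
    kapB P m (cl (m + 2) (x : OnePoint F)) =
      (P.l (lg x) ^ m) ⊗ₜ[ℚ] ww (VF F) (lg (1 - x)) (lg x) := by
  rw [kapB, cl, descend_mk h, kap_gen]

lemma kap_step (m : ℕ) (h : R (m + 2) F ≤ LinearMap.ker (kap P m)) (α : QP F) :
    P.Dop (TensorProduct.mk ℚ (VF F) (Lam (VF F) 2)) (kap P (m + 1) α) =
      ((m : ℚ) + 1) • rho S (Lam (VF F) 2) (VF F)
        ((kapB P m).rTensor (VF F) (deltaS (m + 2) F α)) := by
  have key : P.Dop (TensorProduct.mk ℚ (VF F) (Lam (VF F) 2)) ∘ₗ kap P (m + 1) =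
      ((m : ℚ) + 1) • ((rho S (Lam (VF F) 2) (VF F)).toLinearMap ∘ₗ
        (kapB P m).rTensor (VF F) ∘ₗ deltaS (m + 2) F) := by
    apply QP_hom_ext
    · intro x
      rw [LinearMap.comp_apply, kap_gen, PolyModel.Dop_pow, LinearMap.smul_apply,
        LinearMap.comp_apply, LinearMap.comp_apply, deltaS_gen, LinearMap.rTensor_tmul,
        kapB_cl P m h, LinearEquiv.coe_coe, rho_tmul, TensorProduct.mk_apply]
    · rw [LinearMap.comp_apply, kap_infty, LinearMap.smul_apply,
        LinearMap.comp_apply, LinearMap.comp_apply, deltaS_infty]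
      simp
  exact LinearMap.congr_fun key α

lemma one_tmul_inj [Nontrivial S] (X : Type*) [AddCommGroup X] [Module ℚ X] {x : X}
    (h : (1 : S) ⊗ₜ[ℚ] x = 0) : x = 0 := by
  have hinj : Function.Injective (Algebra.linearMap ℚ S) :=
    (algebraMap ℚ S).injective
  have h1 := Module.Flat.rTensor_preserves_injective_linearMap (M := X)
    (Algebra.linearMap ℚ S) hinj
  have h2 : (Algebra.linearMap ℚ S).rTensor X ((1 : ℚ) ⊗ₜ x) = 0 := by
    rw [LinearMap.rTensor_tmul]
    simpa using h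
  have h3 := h1 (h2.trans (map_zero _).symm)
  have h4 := congrArg (TensorProduct.lid ℚ X) h3
  simpa using h4

lemma ker_kap_zero [Nontrivial S] : LinearMap.ker (kap P 0) = A 2 F := by
  have h : kap P 0 = TensorProduct.mk ℚ S (Lam (VF F) 2) 1 ∘ₗ delta2 F := by
    apply QP_hom_ext
    · intro x
      rw [kap_gen, LinearMap.comp_apply, delta2_gen]
      simp
    · rw [kap_infty, LinearMap.comp_apply, delta2_infty, map_zero]
  ext α
  rw [LinearMap.mem_ker, h, LinearMap.comp_apply, TensorProduct.mk_apply]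
  constructor
  · intro h1
    exact one_tmul_inj (S := S) _ h1
  · intro h1
    have h2 : delta2 F α = 0 := h1
    rw [h2, TensorProduct.tmul_zero]

lemma kapB_injective (m : ℕ) (h : R (m + 2) F = LinearMap.ker (kap P m)) :
    Function.Injective (kapB P m) := by
  rw [← LinearMap.ker_eq_bot, kapB, descend, dif_pos h.le, Submodule.ker_liftQ_eq_bot _ _ _ h.ge]

lemma ker_kap [Nontrivial S] (hR : ∀ n, R (n + 2) F = A (n + 2) F) (m : ℕ) :
    LinearMap.ker (kap P m) = A (m + 2) F := by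
  induction m with
  | zero => exact ker_kap_zero P
  | succ m ih =>
    have h : R (m + 2) F = LinearMap.ker (kap P m) := by rw [ih, hR]
    have hinj := Module.Flat.rTensor_preserves_injective_linearMap (M := VF F)
      (kapB P m) (kapB_injective P m h)
    have hm : ((m : ℚ) + 1) ≠ 0 := by positivity
    ext α
    rw [LinearMap.mem_ker]
    change _ ↔ deltaS (m + 2) F α = 0
    constructor
    · intro h1
      have h2 := kap_step P m h.le α
      rw [h1, map_zero] at h2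
      have h3 := (smul_eq_zero.mp h2.symm).resolve_left hm
      have h4 := (LinearEquiv.map_eq_zero_iff _).mp h3
      exact hinj (h4.trans (map_zero _).symm)
    · intro h1
      have h2 := kap_step P m h.le α
      rw [h1, map_zero, map_zero, smul_zero] at h2
      exact P.Dmk_inj _ m (kap_mem P (m + 1) α) h2

end kappa

end Pool.Agent.Helper91.Gon
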