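import Pool.Agent.Helper91.Gon.Ext

/-!
Koszul exactness in characteristic zero, basis free.

`S` is a commutative `ℚ`-algebra with a linear map `l : V → S` and a derivation
`D : S → S ⊗ V` with `D (l v) = 1 ⊗ v` (a polynomial ring on `V`).
-/

namespace Pool.Agent.Helper91.Gon

open scoped TensorProduct
open TensorProduct

/-- A commutative algebra with linear forms and a total differential. -/
structure PolyModel (V : Type*) [AddCommGroup V] [Module ℚ V] (S : Type*) [CommRing S]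
    [Algebra ℚ S] where
  l : V →ₗ[ℚ] S
  D : Derivation ℚ S (S ⊗[ℚ] V)
  D_l : ∀ v, D (l v) = 1 ⊗ₜ v

section coeff

/-- Coefficients of a polynomial function with values in a subspace lie in the subspace. -/
lemma coeff_mem {M : Type*} [AddCommGroup M] [Module ℚ M] (N : Submodule ℚ M) (n : ℕ)
    (a : ℕ → M) (h : ∀ t : ℚ, ∑ k ∈ Finset.range (n + 1), t ^ k • a k ∈ N) (k : ℕ)
    (hk : k ≤ n) : a k ∈ N := by
  by_contra hmem
  obtain ⟨f, hf, hN⟩ := Submodule.exists_le_ker_of_notMem hmem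
  let p : Polynomial ℚ := ∑ k ∈ Finset.range (n + 1), Polynomial.monomial k (f (a k))
  have hp : p = 0 := by
    apply Polynomial.funext
    intro t
    have h1 : f (∑ k ∈ Finset.range (n + 1), t ^ k • a k) = 0 := by
      have := hN (h t)
      simpa using this
    simp only [p, Polynomial.eval_finsetSum, Polynomial.eval_monomial, Polynomial.eval_zero]
    rw [map_sum] at h1
    rw [← h1]
    apply Finset.sum_congr rfl
    intro i _
    rw [map_smul, smul_eq_mul, mul_comm]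
  have hc : p.coeff k = f (a k) := by
    simp only [p, Polynomial.finsetSum_coeff, Polynomial.coeff_monomial]
    rw [Finset.sum_ite_eq' (Finset.range (n + 1)) k (fun k => f (a k))]
    simp only [Finset.mem_range]
    rw [if_pos (by omega)]
  rw [hp] at hc
  simp at hc
  exact hf hc.symm

end coeff

namespace PolyModel

variable {V : Type*} [AddCommGroup V] [Module ℚ V] {S : Type*} [CommRing S] [Algebra ℚ S]
  (P : PolyModel V S)
  {X Y Z : Type*} [AddCommGroup X] [Module ℚ X] [AddCommGroup Y] [Module ℚ Y]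
  [AddCommGroup Z] [Module ℚ Z]

lemma D_pow (v : V) (c : ℕ) : P.D (P.l v ^ (c + 1)) = ((c : ℚ) + 1) • ((P.l v ^ c) ⊗ₜ[ℚ] v) := by
  rw [Derivation.leibniz_pow, P.D_l, Nat.add_sub_cancel, ← Nat.cast_smul_eq_nsmul ℚ]
  push_cast
  congr 1
  rw [TensorProduct.smul_tmul']
  simp

lemma D_pow_mul (v w : V) (c : ℕ) : P.D (P.l v ^ (c + 1) * P.l w) =
    ((c : ℚ) + 1) • ((P.l v ^ c * P.l w) ⊗ₜ[ℚ] v) + (P.l v ^ (c + 1)) ⊗ₜ[ℚ] w := by
  rw [Derivation.leibniz, D_pow, P.D_l, add_comm]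
  congr 1
  · rw [smul_comm, TensorProduct.smul_tmul']
    simp [mul_comm]
  · rw [TensorProduct.smul_tmul']
    simp

/-- `f ⊗ x ↦ ∑ f_i ⊗ β(v_i, x)` where `D f = ∑ f_i ⊗ v_i`. -/
noncomputable def Dop (β : V →ₗ[ℚ] X →ₗ[ℚ] Y) : S ⊗[ℚ] X →ₗ[ℚ] S ⊗[ℚ] Y :=
  (TensorProduct.lift β).lTensor S ∘ₗ (TensorProduct.assoc ℚ S V X).toLinearMap ∘ₗ
    (P.D : S →ₗ[ℚ] S ⊗[ℚ] V).rTensor X

lemma Dop_tmul (β : V →ₗ[ℚ] X →ₗ[ℚ] Y) (f : S) (x : X) :
    P.Dop β (f ⊗ₜ x) = (TensorProduct.lift β).lTensor S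
      (TensorProduct.assoc ℚ S V X (P.D f ⊗ₜ x)) := rfl

lemma Dop_pow (β : V →ₗ[ℚ] X →ₗ[ℚ] Y) (v : V) (c : ℕ) (x : X) :
    P.Dop β ((P.l v ^ (c + 1)) ⊗ₜ x) = ((c : ℚ) + 1) • ((P.l v ^ c) ⊗ₜ β v x) := by
  rw [Dop_tmul, D_pow, TensorProduct.smul_tmul', TensorProduct.assoc_tmul,
    LinearMap.lTensor_tmul, TensorProduct.lift.tmul, ← TensorProduct.smul_tmul']

lemma Dop_one (β : V →ₗ[ℚ] X →ₗ[ℚ] Y) (x : X) : P.Dop β (1 ⊗ₜ x) = 0 := by
  simp [Dop]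

lemma Dop_pow_mul (β : V →ₗ[ℚ] X →ₗ[ℚ] Y) (v w : V) (c : ℕ) (x : X) :
    P.Dop β ((P.l v ^ (c + 1) * P.l w) ⊗ₜ x) =
      ((c : ℚ) + 1) • ((P.l v ^ c * P.l w) ⊗ₜ β v x) + (P.l v ^ (c + 1)) ⊗ₜ β w x := by
  rw [Dop_tmul, D_pow_mul, TensorProduct.add_tmul, map_add, map_add,
    TensorProduct.smul_tmul', TensorProduct.assoc_tmul, TensorProduct.assoc_tmul,
    LinearMap.lTensor_tmul, LinearMap.lTensor_tmul, TensorProduct.lift.tmul,
    TensorProduct.lift.tmul, ← TensorProduct.smul_tmul']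

lemma Dop_l (β : V →ₗ[ℚ] X →ₗ[ℚ] Y) (w : V) (x : X) :
    P.Dop β (P.l w ⊗ₜ x) = 1 ⊗ₜ β w x := by
  simp [Dop, P.D_l]

/-- multiplication by a fixed element composed with `l`: `v ⊗ x ↦ (f * l v) ⊗ x`. -/
noncomputable def mulAux (X : Type*) [AddCommGroup X] [Module ℚ X] (f : S) :
    V ⊗[ℚ] X →ₗ[ℚ] S ⊗[ℚ] X :=
  ((LinearMap.mulLeft ℚ f) ∘ₗ P.l).rTensor X

@[simp] lemma mulAux_tmul (f : S) (v : V) (x : X) :
    P.mulAux X f (v ⊗ₜ x) = (f * P.l v) ⊗ₜ x := by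
  simp [mulAux]

/-- `f ⊗ x ↦ ∑ f l(w_i) ⊗ x_i` where `σ x = ∑ w_i ⊗ x_i`. -/
noncomputable def Mop (σ : X →ₗ[ℚ] V ⊗[ℚ] Y) : S ⊗[ℚ] X →ₗ[ℚ] S ⊗[ℚ] Y :=
  TensorProduct.lift
    { toFun := fun f => P.mulAux Y f ∘ₗ σ
      map_add' := by
        intro f g
        have : P.mulAux Y (f + g) = P.mulAux Y f + P.mulAux Y g := by
          ext v x
          simp [add_mul, TensorProduct.add_tmul]
        rw [this, LinearMap.add_comp]
      map_smul' := by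
        intro c f
        have : P.mulAux Y (c • f) = c • P.mulAux Y f := by
          ext v x
          simp [TensorProduct.smul_tmul']
        rw [this, LinearMap.smul_comp]
        simp }

@[simp] lemma Mop_tmul (σ : X →ₗ[ℚ] V ⊗[ℚ] Y) (f : S) (x : X) :
    P.Mop σ (f ⊗ₜ x) = P.mulAux Y f (σ x) := rfl

/-- The span of `l(v)^c ⊗ x`. -/
def KK (c : ℕ) (X : Type*) [AddCommGroup X] [Module ℚ X] : Submodule ℚ (S ⊗[ℚ] X) :=
  Submodule.span ℚ {z | ∃ (v : V) (x : X), z = (P.l v ^ c) ⊗ₜ x}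

lemma mem_KK (c : ℕ) (v : V) (x : X) : (P.l v ^ c) ⊗ₜ[ℚ] x ∈ P.KK c X :=
  Submodule.subset_span ⟨v, x, rfl⟩

lemma one_mem_KK (x : X) : (1 : S) ⊗ₜ[ℚ] x ∈ P.KK 0 X := by
  have := P.mem_KK 0 0 x
  simpa using this

/-- Induction principle: a linear identity may be checked on generators. -/
lemma KK_eqOn {M : Type*} [AddCommGroup M] [Module ℚ M] {c : ℕ}
    {f g : S ⊗[ℚ] X →ₗ[ℚ] M} (h : ∀ v x, f ((P.l v ^ c) ⊗ₜ x) = g ((P.l v ^ c) ⊗ₜ x))
    {z : S ⊗[ℚ] X} (hz : z ∈ P.KK c X) : f z = g z := by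
  refine LinearMap.eqOn_span (s := {z | ∃ (v : V) (x : X), z = (P.l v ^ c) ⊗ₜ x}) ?_ hz
  rintro _ ⟨v, x, rfl⟩
  exact h v x

lemma KK_map_le {M : Type*} [AddCommGroup M] [Module ℚ M] {c : ℕ}
    {f : S ⊗[ℚ] X →ₗ[ℚ] M} {N : Submodule ℚ M} (h : ∀ v x, f ((P.l v ^ c) ⊗ₜ x) ∈ N)
    {z : S ⊗[ℚ] X} (hz : z ∈ P.KK c X) : f z ∈ N := by
  have h1 : P.KK c X ≤ N.comap f := by
    unfold KK
    rw [Submodule.span_le]
    rintro _ ⟨v, x, rfl⟩
    exact h v x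
  exact h1 hz

lemma Dop_mem (β : V →ₗ[ℚ] X →ₗ[ℚ] Y) {c : ℕ} {z : S ⊗[ℚ] X} (hz : z ∈ P.KK (c + 1) X) :
    P.Dop β z ∈ P.KK c Y := by
  refine P.KK_map_le (fun v x => ?_) hz
  rw [Dop_pow]
  exact Submodule.smul_mem _ _ (P.mem_KK c v _)

lemma Dop_KK_zero (β : V →ₗ[ℚ] X →ₗ[ℚ] Y) {z : S ⊗[ℚ] X} (hz : z ∈ P.KK 0 X) :
    P.Dop β z = 0 := by
  have := P.KK_eqOn (f := P.Dop β) (g := 0) (fun v x => by simp [Dop_one]) hz
  simpa using this

/-- polarisation: `l(v)^c l(w)` is in the span of the `(c+1)`-st powers. -/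
lemma pow_mul_mem (c : ℕ) (v w : V) (x : X) : (P.l v ^ c * P.l w) ⊗ₜ[ℚ] x ∈ P.KK (c + 1) X := by
  have h := coeff_mem (P.KK (c + 1) X) (c + 1)
    (fun k => (((c + 1).choose k : ℚ)) • ((P.l v ^ (c + 1 - k) * P.l w ^ k) ⊗ₜ[ℚ] x)) ?_ 1
    (by omega)
  · have h2 : ((c : ℚ) + 1) • ((P.l v ^ c * P.l w) ⊗ₜ[ℚ] x) ∈ P.KK (c + 1) X := by
      simpa using h
    have h3 := Submodule.smul_mem _ (((c : ℚ) + 1)⁻¹) h2
    rwa [smul_smul, inv_mul_cancel₀ (by positivity), one_smul] at h3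
  · intro t
    have h4 : ∑ k ∈ Finset.range (c + 1 + 1), t ^ k •
        (((c + 1).choose k : ℚ) • ((P.l v ^ (c + 1 - k) * P.l w ^ k) ⊗ₜ[ℚ] x)) =
        (P.l (v + t • w) ^ (c + 1)) ⊗ₜ[ℚ] x := by
      rw [map_add, map_smul, add_comm (P.l v), add_pow, TensorProduct.sum_tmul]
      apply Finset.sum_congr rfl
      intro k _
      rw [smul_smul, TensorProduct.smul_tmul']
      congr 1
      rw [smul_pow, Algebra.smul_def, Algebra.smul_def, map_mul, map_pow, map_natCast]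
      ring
    rw [h4]
    exact P.mem_KK (c + 1) _ x

lemma mulAux_mem (c : ℕ) (v : V) (y : V ⊗[ℚ] X) : P.mulAux X (P.l v ^ c) y ∈ P.KK (c + 1) X := by
  induction y using TensorProduct.induction_on with
  | zero => simp
  | tmul w x =>
    rw [mulAux_tmul]
    exact P.pow_mul_mem c v w x
  | add a b ha hb =>
    rw [map_add]
    exact Submodule.add_mem _ ha hb

lemma Mop_mem (σ : X →ₗ[ℚ] V ⊗[ℚ] Y) {c : ℕ} {z : S ⊗[ℚ] X} (hz : z ∈ P.KK c X) :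
    P.Mop σ z ∈ P.KK (c + 1) Y := by
  refine P.KK_map_le (fun v x => ?_) hz
  rw [Mop_tmul]
  exact P.mulAux_mem c v _

/-- `D` applied to a product. -/
lemma Dop_mulAux (β : V →ₗ[ℚ] X →ₗ[ℚ] Y) (c : ℕ) (v : V) (y : V ⊗[ℚ] X) :
    P.Dop β (P.mulAux X (P.l v ^ (c + 1)) y) =
      ((c : ℚ) + 1) • P.mulAux Y (P.l v ^ c) ((β v).lTensor V y) +
        (P.l v ^ (c + 1)) ⊗ₜ TensorProduct.lift β y := by
  induction y using TensorProduct.induction_on with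
  | zero => simp
  | tmul w x =>
    rw [mulAux_tmul, Dop_pow_mul, LinearMap.lTensor_tmul, mulAux_tmul, TensorProduct.lift.tmul]
  | add a b ha hb =>
    rw [map_add, map_add, ha, hb, map_add, map_add, map_add, smul_add, TensorProduct.tmul_add]
    abel

lemma Dop_mulAux_one (β : V →ₗ[ℚ] X →ₗ[ℚ] Y) (y : V ⊗[ℚ] X) :
    P.Dop β (P.mulAux X (1 : S) y) = 1 ⊗ₜ TensorProduct.lift β y := by
  induction y using TensorProduct.induction_on with
  | zero => simp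
  | tmul w x =>
    rw [mulAux_tmul, one_mul, Dop_l, TensorProduct.lift.tmul]
  | add a b ha hb =>
    rw [map_add, map_add, ha, hb, map_add, TensorProduct.tmul_add]

/-- **Koszul homotopy identity.**  Here `β : V → X → Y` is a wedge, `σ' : Y → V ⊗ X` the
comultiplication above it, `γ : V → W → X` the wedge below and `σ : X → V ⊗ W` the comultiplication
below. -/
lemma homotopy {W : Type*} [AddCommGroup W] [Module ℚ W]
    (β : V →ₗ[ℚ] X →ₗ[ℚ] Y) (σ' : Y →ₗ[ℚ] V ⊗[ℚ] X)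
    (γ : V →ₗ[ℚ] W →ₗ[ℚ] X) (σ : X →ₗ[ℚ] V ⊗[ℚ] W) (j : ℚ)
    (h1 : ∀ v x, σ' (β v x) = v ⊗ₜ x - (γ v).lTensor V (σ x))
    (h2 : ∀ x, TensorProduct.lift γ (σ x) = j • x)
    {c : ℕ} {z : S ⊗[ℚ] X} (hz : z ∈ P.KK c X) :
    P.Mop σ' (P.Dop β z) + P.Dop γ (P.Mop σ z) = ((c : ℚ) + j) • z := by
  have key := P.KK_eqOn (f := P.Mop σ' ∘ₗ P.Dop β + P.Dop γ ∘ₗ P.Mop σ)
    (g := ((c : ℚ) + j) • LinearMap.id) (c := c) ?_ hz
  · simpa using key
  · intro v x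
    simp only [LinearMap.add_apply, LinearMap.comp_apply, LinearMap.smul_apply,
      LinearMap.id_apply]
    cases c with
    | zero =>
      simp only [pow_zero, Dop_one, map_zero, zero_add, Mop_tmul, Nat.cast_zero]
      rw [Dop_mulAux_one, h2, TensorProduct.tmul_smul]
    | succ c =>
      rw [Dop_pow, map_smul, Mop_tmul, h1, Mop_tmul, Dop_mulAux, h2, map_sub, mulAux_tmul,
        smul_sub, ← pow_succ, TensorProduct.tmul_smul]
      push_cast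
      rw [add_smul ((c : ℚ) + 1) j]
      abel

/-- Exactness from the homotopy identity. -/
lemma exact_of_homotopy {W : Type*} [AddCommGroup W] [Module ℚ W]
    (β : V →ₗ[ℚ] X →ₗ[ℚ] Y) (σ' : Y →ₗ[ℚ] V ⊗[ℚ] X)
    (γ : V →ₗ[ℚ] W →ₗ[ℚ] X) (σ : X →ₗ[ℚ] V ⊗[ℚ] W) (j : ℚ)
    (h1 : ∀ v x, σ' (β v x) = v ⊗ₜ x - (γ v).lTensor V (σ x))
    (h2 : ∀ x, TensorProduct.lift γ (σ x) = j • x)
    {c : ℕ} {z : S ⊗[ℚ] X} (hz : z ∈ P.KK c X) (hcj : (c : ℚ) + j ≠ 0)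
    (hd : P.Dop β z = 0) :
    z = P.Dop γ (((c : ℚ) + j)⁻¹ • P.Mop σ z) := by
  have h := P.homotopy β σ' γ σ j h1 h2 hz
  rw [hd, map_zero, zero_add] at h
  rw [map_smul, h, smul_smul, inv_mul_cancel₀ hcj, one_smul]

end PolyModel

end Pool.Agent.Helper91.Gon
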